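import Mathlib

set_option autoImplicit false

namespace Pool.Agent.H879R2.SC

open MeasureTheory Filter Set
open scoped Topology Pointwise

/-- The Cantor set is Lebesgue-null. -/
lemma volume_cantorSet : volume cantorSet = 0 := by
  have h3 : volume ((fun x : ℝ => x / 3) '' cantorSet) = ENNReal.ofReal (1/3) * volume cantorSet := by
    have : (fun x : ℝ => x / 3) '' cantorSet = (1/3 : ℝ) • cantorSet := by
      ext y
      simp only [mem_image, Set.mem_smul_set, smul_eq_mul]
      constructor
      · rintro ⟨x, hx, rfl⟩; exact ⟨x, hx, by ring⟩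
      · rintro ⟨x, hx, rfl⟩; exact ⟨x, hx, by ring⟩
    rw [this, Measure.addHaar_smul]
    congr 2
    simp
  have h4 : volume ((fun x : ℝ => (2 + x) / 3) '' cantorSet)
      = ENNReal.ofReal (1/3) * volume cantorSet := by
    have : (fun x : ℝ => (2 + x) / 3) '' cantorSet
        = (fun x : ℝ => (2/3 : ℝ) + x) '' ((fun x : ℝ => x / 3) '' cantorSet) := by
      rw [image_image]
      apply image_congr
      intro x _; ring
    rw [this, image_add_left, measure_preimage_add, h3]
  have h5 : volume cantorSet ≤ ENNReal.ofReal (2/3) * volume cantorSet := by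
    calc volume cantorSet
        = volume ((fun x : ℝ => x / 3) '' cantorSet ∪ (fun x : ℝ => (2 + x) / 3) '' cantorSet) := by
          rw [← cantorSet_eq_union_halves]
      _ ≤ _ := measure_union_le _ _
      _ = ENNReal.ofReal (2/3) * volume cantorSet := by
          rw [h3, h4, ← add_mul, ← ENNReal.ofReal_add (by norm_num) (by norm_num)]
          norm_num
  have hfin : volume cantorSet ≠ ⊤ := isCompact_cantorSet.measure_lt_top.ne
  by_contra h0
  have h6 := ENNReal.toReal_mono (ENNReal.mul_ne_top ENNReal.ofReal_ne_top hfin) h5
  rw [ENNReal.toReal_mul, ENNReal.toReal_ofReal (by norm_num)] at h6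
  have h7 : 0 < (volume cantorSet).toReal := ENNReal.toReal_pos h0 hfin
  linarith

/-- There is an atomless probability measure carried by the Cantor set. -/
lemma exists_cantor_measure : ∃ ν : Measure ℝ, IsProbabilityMeasure ν ∧
    (∀ x, ν {x} = 0) ∧ ν cantorSetᶜ = 0 := by
  have hC : ¬ Countable cantorSet := by
    intro h
    have h3 : Cardinal.mk (ℕ → Bool) = 2 ^ Cardinal.aleph0 := by simp
    have h1 : Countable (ℕ → Bool) := cantorSetEquivNatToBool.symm.injective.countable
    have h2 := Cardinal.mk_le_aleph0_iff.2 h1
    rw [h3] at h2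
    exact absurd h2 (not_le.2 (Cardinal.cantor _))
  have hI : ¬ Countable (Icc (0:ℝ) 1) := by
    intro h
    have h1 : (Icc (0:ℝ) 1).Countable := h
    have := h1.measure_zero volume
    rw [Real.volume_Icc] at this
    norm_num at this
  have : StandardBorelSpace cantorSet := isClosed_cantorSet.measurableSet.standardBorel
  have : StandardBorelSpace (Icc (0:ℝ) 1) := measurableSet_Icc.standardBorel
  let e : Icc (0:ℝ) 1 ≃ᵐ cantorSet := PolishSpace.measurableEquivOfNotCountable hI hC
  let T : Icc (0:ℝ) 1 → ℝ := fun t => (e t : ℝ)
  have hT : Measurable T := measurable_subtype_coe.comp e.measurable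
  have hinj : Function.Injective T := fun a b h => e.injective (Subtype.ext h)
  refine ⟨Measure.map T volume, ?_, ?_, ?_⟩
  · exact Measure.isProbabilityMeasure_map hT.aemeasurable
  · intro x
    rw [Measure.map_apply hT (measurableSet_singleton x)]
    have hs : (T ⁻¹' {x}).Subsingleton := by
      intro a ha b hb
      exact hinj (ha.trans hb.symm)
    exact hs.measure_zero _
  · rw [Measure.map_apply hT isClosed_cantorSet.measurableSet.compl]
    have : T ⁻¹' cantorSetᶜ = ∅ := by
      ext t
      simp [T]
    rw [this, measure_empty]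

end Pool.Agent.H879R2.SC
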