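import Pool.Agent.H879R2.SC.Dist

set_option autoImplicit false

namespace Pool.Agent.H879R2.SC

open MeasureTheory Filter Set Matrix
open scoped Topology ContDiff

variable {n : ℕ}

lemma gmat_apply (A : Fin n → ℝ → ℝ) (x : Rn n) (i j : Fin n) :
    gmat A x i j = (1 : Matrix (Fin n) (Fin n) ℝ) i j + A i (x i) * A j (x j) := by
  simp [gmat, Matrix.vecMulVec_apply, avec]

/-- `W = det g = 1 + |∇|²`. -/
noncomputable def Wf (A : Fin n → ℝ → ℝ) (x : Rn n) : ℝ := 1 + ∑ k, A k (x k) ^ 2

lemma Wf_pos (A : Fin n → ℝ → ℝ) (x : Rn n) : 0 < Wf A x := by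
  have : 0 ≤ ∑ k, A k (x k) ^ 2 := Finset.sum_nonneg fun _ _ => sq_nonneg _
  unfold Wf; linarith

lemma one_le_Wf (A : Fin n → ℝ → ℝ) (x : Rn n) : 1 ≤ Wf A x := by
  have : 0 ≤ ∑ k, A k (x k) ^ 2 := Finset.sum_nonneg fun _ _ => sq_nonneg _
  unfold Wf; linarith

lemma det_gmat (A : Fin n → ℝ → ℝ) (x : Rn n) : (gmat A x).det = Wf A x := by
  have : Matrix.vecMulVec (avec A x) (avec A x)
      = Matrix.replicateCol Unit (avec A x) * Matrix.replicateRow Unit (avec A x) := by
    ext i j
    simp [Matrix.vecMulVec_apply, Matrix.mul_apply]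
  rw [gmat, this, Matrix.det_one_add_replicateCol_mul_replicateRow, Wf]
  simp [dotProduct, avec, pow_two]

lemma inv_gmat (A : Fin n → ℝ → ℝ) (x : Rn n) :
    (gmat A x)⁻¹ = 1 - (Wf A x)⁻¹ • Matrix.vecMulVec (avec A x) (avec A x) := by
  apply Matrix.inv_eq_right_inv
  have h1 : Matrix.vecMulVec (avec A x) (avec A x) * Matrix.vecMulVec (avec A x) (avec A x)
      = (Wf A x - 1) • Matrix.vecMulVec (avec A x) (avec A x) := by
    ext i j
    simp only [Matrix.mul_apply, Matrix.vecMulVec_apply, Matrix.smul_apply, smul_eq_mul, Wf, avec]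
    rw [add_sub_cancel_left, Finset.sum_mul]
    apply Finset.sum_congr rfl
    intro k _
    ring
  rw [gmat, add_mul, one_mul, mul_sub, mul_one, mul_smul_comm, h1, smul_smul]
  have h2 : (Wf A x)⁻¹ * (Wf A x - 1) = 1 - (Wf A x)⁻¹ := by
    field_simp [(Wf_pos A x).ne']
  rw [h2, sub_smul, one_smul]
  abel

lemma inv_gmat_apply (A : Fin n → ℝ → ℝ) (x : Rn n) (i j : Fin n) :
    (gmat A x)⁻¹ i j = (1 : Matrix (Fin n) (Fin n) ℝ) i j
      - (Wf A x)⁻¹ * (A i (x i) * A j (x j)) := by
  rw [inv_gmat]
  simp [Matrix.vecMulVec_apply, avec]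

/-- The Riemannian metric of a separable graph. -/
noncomputable def ofGraph (A : Fin n → ℝ → ℝ) (hA : ∀ i, ContDiff ℝ ∞ (A i)) : RMetric n where
  g := gmat A
  smooth i j := by
    simp_rw [gmat_apply]
    exact contDiff_const.add (((hA i).comp (contDiff_apply ℝ ℝ i)).mul
      ((hA j).comp (contDiff_apply ℝ ℝ j)))
  posDef x := by
    unfold gmat
    apply Matrix.PosDef.add_posSemidef Matrix.PosDef.one
    have := Matrix.posSemidef_vecMulVec_self_star (avec A x)
    simpa using this

lemma hasFDerivAt_coord {f : ℝ → ℝ} {f' : ℝ} (k : Fin n) (x : Rn n) (hf : HasDerivAt f f' (x k)) :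
    HasFDerivAt (fun y : Rn n => f (y k)) (f' • (ContinuousLinearMap.proj k : Rn n →L[ℝ] ℝ)) x :=
  hf.comp_hasFDerivAt x (hasFDerivAt_apply k x)

lemma pd_eq {f : Rn n → ℝ} {f' : Rn n →L[ℝ] ℝ} {x : Rn n} (h : HasFDerivAt f f' x) (i : Fin n) :
    pd i f x = f' (Pi.single i 1) := by
  unfold pd; rw [h.fderiv]

section
variable {A : Fin n → ℝ → ℝ} (hA : ∀ i, ContDiff ℝ ∞ (A i))

include hA

lemma hasDerivAt_A (i : Fin n) (s : ℝ) : HasDerivAt (A i) (deriv (A i) s) s :=
  ((hA i).differentiable (by simp)).differentiableAt.hasDerivAt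

lemma hasDerivAt_A' (i : Fin n) (s : ℝ) :
    HasDerivAt (deriv (A i)) (deriv (deriv (A i)) s) s := by
  have h : ContDiff ℝ ∞ (deriv (A i)) := by
    have := (contDiff_infty_iff_deriv (𝕜 := ℝ)).1 (hA i)
    exact this.2
  exact (h.differentiable (by simp)).differentiableAt.hasDerivAt

lemma pd_gmat (l i j : Fin n) (x : Rn n) :
    pd l (fun y => gmat A y i j) x =
      (if i = l then deriv (A i) (x i) * A j (x j) else 0)
        + (if j = l then A i (x i) * deriv (A j) (x j) else 0) := by
  simp_rw [gmat_apply]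
  have h : HasFDerivAt (fun y : Rn n => (1 : Matrix (Fin n) (Fin n) ℝ) i j
      + A i (y i) * A j (y j)) _ x := ((hasFDerivAt_coord i x (hasDerivAt_A hA i (x i))).fun_mul
    (hasFDerivAt_coord j x (hasDerivAt_A hA j (x j)))).const_add
    ((1 : Matrix (Fin n) (Fin n) ℝ) i j)
  rw [pd_eq h]
  simp only [_root_.add_apply, _root_.smul_apply,
    ContinuousLinearMap.proj_apply, smul_eq_mul, Pi.single_apply]
  split_ifs <;> ring

lemma christoffel_eq (k i j : Fin n) (x : Rn n) :
    (ofGraph A hA).christoffel k i j x =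
      if i = j then deriv (A i) (x i) * A k (x k) * (Wf A x)⁻¹ else 0 := by
  unfold RMetric.christoffel ofGraph
  simp only
  simp_rw [pd_gmat hA]
  have h1 : ∀ l, ((if j = i then deriv (A j) (x j) * A l (x l) else 0)
        + (if l = i then A j (x j) * deriv (A l) (x l) else 0)
      + ((if i = j then deriv (A i) (x i) * A l (x l) else 0)
        + (if l = j then A i (x i) * deriv (A l) (x l) else 0))
      - ((if i = l then deriv (A i) (x i) * A j (x j) else 0)
        + (if j = l then A i (x i) * deriv (A j) (x j) else 0)))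
      = if i = j then 2 * deriv (A i) (x i) * A l (x l) else 0 := by
    intro l
    by_cases h1 : i = j
    · subst h1
      by_cases h2 : i = l
      · subst h2; simp; ring
      · have h2' : ¬ l = i := fun h => h2 h.symm
        simp [h2, h2']; ring
    · have h1' : ¬ j = i := fun h => h1 h.symm
      by_cases h2 : i = l
      · subst h2
        simp [h1, h1']; ring
      · have h2' : ¬ l = i := fun h => h2 h.symm
        by_cases h3 : j = l
        · subst h3; simp [h1, h1']
        · have h3' : ¬ l = j := fun h => h3 h.symm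
          simp [h1, h1', h2, h2', h3, h3']
  simp_rw [h1, inv_gmat_apply]
  by_cases h : i = j
  · subst h
    simp only [if_true, sub_mul, Finset.sum_sub_distrib]
    have e1 : ∑ l, (1 : Matrix (Fin n) (Fin n) ℝ) k l * (2 * deriv (A i) (x i) * A l (x l))
        = 2 * deriv (A i) (x i) * A k (x k) := by
      rw [Finset.sum_eq_single k]
      · simp
      · intro b _ hb
        rw [Matrix.one_apply_ne hb.symm, zero_mul]
      · simp
    have e2 : ∑ l, (Wf A x)⁻¹ * (A k (x k) * A l (x l)) * (2 * deriv (A i) (x i) * A l (x l))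
        = (Wf A x)⁻¹ * (2 * deriv (A i) (x i) * A k (x k)) * (Wf A x - 1) := by
      rw [Wf, add_sub_cancel_left, Finset.mul_sum]
      apply Finset.sum_congr rfl
      intro l _
      ring
    rw [e1, e2]
    have := (Wf_pos A x).ne'
    field_simp
    ring
  · simp [h]

lemma hasFDerivAt_Wf (x : Rn n) :
    HasFDerivAt (Wf A) (∑ k, (2 * A k (x k) * deriv (A k) (x k)) •
      (ContinuousLinearMap.proj k : Rn n →L[ℝ] ℝ)) x := by
  unfold Wf
  apply HasFDerivAt.const_add
  have := HasFDerivAt.fun_sum (u := Finset.univ) (A := fun k (y : Rn n) => A k (y k) ^ 2)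
    (A' := fun k => (2 * A k (x k) * deriv (A k) (x k)) •
      (ContinuousLinearMap.proj k : Rn n →L[ℝ] ℝ)) (x := x) (by
      intro k _
      have h := (hasDerivAt_A hA k (x k)).fun_mul (hasDerivAt_A hA k (x k))
      have h' : HasDerivAt (fun s => A k s ^ 2) (2 * A k (x k) * deriv (A k) (x k)) (x k) := by
        simp_rw [pow_two]
        exact h.congr_deriv (by ring)
      exact hasFDerivAt_coord (f := fun s => A k s ^ 2) k x h')
  exact this

/-- Derivative of `b_i a_k / W`. -/
lemma pd_gam (l i k : Fin n) (x : Rn n) :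
    pd l (fun y => deriv (A i) (y i) * A k (y k) * (Wf A y)⁻¹) x
      = (if i = l then deriv (deriv (A i)) (x i) * A k (x k) * (Wf A x)⁻¹ else 0)
        + (if k = l then deriv (A i) (x i) * deriv (A k) (x k) * (Wf A x)⁻¹ else 0)
        - deriv (A i) (x i) * A k (x k) * (2 * A l (x l) * deriv (A l) (x l))
            * ((Wf A x)⁻¹) ^ 2 := by
  have hW := (Wf_pos A x).ne'
  have h1 := (hasFDerivAt_coord i x (hasDerivAt_A' hA i (x i))).fun_mul
    (hasFDerivAt_coord k x (hasDerivAt_A hA k (x k)))
  have h2 : HasFDerivAt (fun y => (Wf A y)⁻¹) (-((Wf A x)⁻¹)^2 • (∑ k, (2 * A k (x k) *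
      deriv (A k) (x k)) • (ContinuousLinearMap.proj k : Rn n →L[ℝ] ℝ))) x := by
    have := (hasDerivAt_inv hW).comp_hasFDerivAt x (hasFDerivAt_Wf hA x)
    rw [inv_pow]
    exact this
  have h3 := h1.fun_mul h2
  rw [pd_eq h3]
  simp only [_root_.add_apply, _root_.smul_apply,
    ContinuousLinearMap.proj_apply, smul_eq_mul, Pi.single_apply, _root_.sum_apply]
  have h4 : ∑ c, 2 * A c (x c) * deriv (A c) (x c) * (if c = l then (1:ℝ) else 0)
      = 2 * A l (x l) * deriv (A l) (x l) := by
    rw [Finset.sum_eq_single l]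
    · simp
    · intro b _ hb; simp [hb]
    · simp
  rw [h4]
  split_ifs <;> ring

lemma ricci_eq (i j : Fin n) (x : Rn n) :
    (ofGraph A hA).ricci i j x =
      (if i = j then deriv (A i) (x i) * ((Wf A x)⁻¹ * (∑ k, deriv (A k) (x k))
        - (Wf A x)⁻¹ * deriv (A i) (x i)
        - ((Wf A x)⁻¹) ^ 2 * ∑ k, A k (x k) ^ 2 * deriv (A k) (x k)) else 0)
      + A i (x i) * A j (x j) * deriv (A i) (x i) * deriv (A j) (x j) * ((Wf A x)⁻¹) ^ 2 := by
  unfold RMetric.ricci
  have hchr : ∀ k i j, (ofGraph A hA).christoffel k i j =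
      fun x => if i = j then deriv (A i) (x i) * A k (x k) * (Wf A x)⁻¹ else 0 := by
    intro k i j; ext x; exact christoffel_eq hA k i j x
  simp_rw [hchr]
  have hpd : ∀ l k i j, pd l (fun y : Rn n => if i = j then deriv (A i) (y i) * A k (y k)
      * (Wf A y)⁻¹ else 0) x = if i = j then
      (if i = l then deriv (deriv (A i)) (x i) * A k (x k) * (Wf A x)⁻¹ else 0)
        + (if k = l then deriv (A i) (x i) * deriv (A k) (x k) * (Wf A x)⁻¹ else 0)
        - deriv (A i) (x i) * A k (x k) * (2 * A l (x l) * deriv (A l) (x l))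
            * ((Wf A x)⁻¹) ^ 2 else 0 := by
    intro l k i j
    by_cases h : i = j
    · simp only [h, if_true]
      exact pd_gam hA l j k x
    · simp only [h, if_false]
      unfold pd; simp
  simp_rw [hpd]
  set w := (Wf A x)⁻¹ with hw
  -- the four sums
  have s1 : ∑ k, (if i = j then
      (if i = k then deriv (deriv (A i)) (x i) * A k (x k) * w else 0)
        + (if True then deriv (A i) (x i) * deriv (A k) (x k) * w else 0)
        - deriv (A i) (x i) * A k (x k) * (2 * A k (x k) * deriv (A k) (x k)) * w ^ 2 else 0)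
      = if i = j then deriv (deriv (A i)) (x i) * A i (x i) * w
        + deriv (A i) (x i) * w * (∑ k, deriv (A k) (x k))
        - 2 * deriv (A i) (x i) * w ^ 2 * ∑ k, A k (x k) ^ 2 * deriv (A k) (x k) else 0 := by
    by_cases h : i = j
    · simp only [h, if_true]
      rw [Finset.sum_sub_distrib, Finset.sum_add_distrib, Finset.sum_ite_eq]
      simp only [Finset.mem_univ, if_true]
      congr 1
      · congr 1
        rw [Finset.mul_sum]
        apply Finset.sum_congr rfl; intro k _; ring
      · rw [Finset.mul_sum]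
        apply Finset.sum_congr rfl; intro k _; ring
    · simp [h]
  have s2 : ∑ k, (if i = k then
      (if i = j then deriv (deriv (A i)) (x i) * A k (x k) * w else 0)
        + (if k = j then deriv (A i) (x i) * deriv (A k) (x k) * w else 0)
        - deriv (A i) (x i) * A k (x k) * (2 * A j (x j) * deriv (A j) (x j)) * w ^ 2 else 0)
      = (if i = j then deriv (deriv (A i)) (x i) * A i (x i) * w else 0)
        + (if i = j then deriv (A i) (x i) * deriv (A i) (x i) * w else 0)
        - deriv (A i) (x i) * A i (x i) * (2 * A j (x j) * deriv (A j) (x j)) * w ^ 2 := by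
    rw [Finset.sum_ite_eq]
    simp
  have s3 : ∑ k, ∑ l, ((if k = l then deriv (A k) (x k) * A k (x k) * w else 0)
        * (if i = j then deriv (A i) (x i) * A l (x l) * w else 0)
      - (if j = l then deriv (A j) (x j) * A k (x k) * w else 0)
        * (if i = k then deriv (A i) (x i) * A l (x l) * w else 0))
      = (if i = j then deriv (A i) (x i) * w ^ 2 * ∑ k, A k (x k) ^ 2 * deriv (A k) (x k) else 0)
        - deriv (A j) (x j) * A i (x i) * w * (deriv (A i) (x i) * A j (x j) * w) := by
    have e1 : ∀ k, ∑ l, ((if k = l then deriv (A k) (x k) * A k (x k) * w else 0)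
        * (if i = j then deriv (A i) (x i) * A l (x l) * w else 0)
      - (if j = l then deriv (A j) (x j) * A k (x k) * w else 0)
        * (if i = k then deriv (A i) (x i) * A l (x l) * w else 0))
        = deriv (A k) (x k) * A k (x k) * w *
          (if i = j then deriv (A i) (x i) * A k (x k) * w else 0)
          - deriv (A j) (x j) * A k (x k) * w
          * (if i = k then deriv (A i) (x i) * A j (x j) * w else 0) := by
      intro k
      rw [Finset.sum_sub_distrib]
      simp only [ite_mul, zero_mul, Finset.sum_ite_eq, Finset.mem_univ, if_true]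
    simp_rw [e1]
    rw [Finset.sum_sub_distrib]
    congr 1
    · by_cases h : i = j
      · simp only [h, if_true]
        rw [Finset.mul_sum]
        apply Finset.sum_congr rfl; intro k _; ring
      · simp [h]
    · simp only [mul_ite, mul_zero, Finset.sum_ite_eq, Finset.mem_univ, if_true]
  rw [Finset.sum_sub_distrib, s1, s2, s3]
  by_cases h : i = j
  · subst h
    simp only [if_true]
    ring
  · simp only [h, if_false]
    ring

end

end Pool.Agent.H879R2.SC
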