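import Mathlib

set_option autoImplicit false

namespace Pool.Agent.H879R2.SC

open MeasureTheory Filter Set
open scoped Topology ContDiff

/-- Coordinate space of dimension `n`. -/
abbrev Rn (n : ℕ) : Type := Fin n → ℝ

/-- The norm of a tangent vector `v` for the quadratic form with matrix `A`. -/
noncomputable def tnorm {n : ℕ} (A : Matrix (Fin n) (Fin n) ℝ) (v : Rn n) : ℝ :=
  Real.sqrt (v ⬝ᵥ A.mulVec v)

/-- `HasPath g x y ℓ`: some piecewise continuously differentiable curve from `x` to `y` has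
length `ℓ` for the field `g` of quadratic forms. Such a curve is a finite concatenation of
continuously differentiable curves, each parametrised by the unit interval. -/
inductive HasPath {n : ℕ} (g : Rn n → Matrix (Fin n) (Fin n) ℝ) : Rn n → Rn n → ℝ → Prop
  | arc (γ : ℝ → Rn n) (hγ : ContDiff ℝ 1 γ) :
      HasPath g (γ 0) (γ 1) (∫ t in (0 : ℝ)..1, tnorm (g (γ t)) (deriv γ t))
  | trans {x y z : Rn n} {a b : ℝ} : HasPath g x y a → HasPath g y z b → HasPath g x z (a + b)

/-- The length distance of the field `g` of quadratic forms: the infimum of the lengths of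
piecewise continuously differentiable curves. -/
noncomputable def rdist {n : ℕ} (g : Rn n → Matrix (Fin n) (Fin n) ℝ) (x y : Rn n) : ℝ :=
  sInf {ℓ | HasPath g x y ℓ}

/-- A smooth Riemannian metric on `n`-dimensional coordinate space, given by the matrix of its
coefficients in the standard coordinates. -/
structure RMetric (n : ℕ) where
  g : Rn n → Matrix (Fin n) (Fin n) ℝ
  smooth : ∀ i j, ContDiff ℝ ∞ (fun x => g x i j)
  posDef : ∀ x, (g x).PosDef

/-- Partial derivative in the `i`-th coordinate. -/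
noncomputable def pd {n : ℕ} (i : Fin n) (f : Rn n → ℝ) (x : Rn n) : ℝ :=
  fderiv ℝ f x (Pi.single i 1)

namespace RMetric

variable {n : ℕ} (G : RMetric n)

/-- Riemannian distance. -/
noncomputable def dist (x y : Rn n) : ℝ := rdist G.g x y

/-- Riemannian volume measure. -/
noncomputable def vol : Measure (Rn n) :=
  volume.withDensity (fun x => ENNReal.ofReal (Real.sqrt (G.g x).det))

/-- Christoffel symbols `Γ^k_{ij}` of the Levi-Civita connection. -/
noncomputable def christoffel (k i j : Fin n) (x : Rn n) : ℝ :=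
  (1 / 2) * ∑ l, (G.g x)⁻¹ k l * (pd i (fun y => G.g y j l) x + pd j (fun y => G.g y i l) x
    - pd l (fun y => G.g y i j) x)

/-- Ricci tensor `R_{ij} = ∂_k Γ^k_{ij} - ∂_j Γ^k_{ik} + Γ^k_{kl} Γ^l_{ij} - Γ^k_{jl} Γ^l_{ik}`. -/
noncomputable def ricci (i j : Fin n) (x : Rn n) : ℝ :=
  ∑ k, (pd k (G.christoffel k i j) x - pd j (G.christoffel k i k) x)
    + ∑ k, ∑ l, (G.christoffel k k l x * G.christoffel l i j x
      - G.christoffel k j l x * G.christoffel l i k x)

/-- Scalar curvature `g^{ij} R_{ij}`. -/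
noncomputable def scal (x : Rn n) : ℝ := ∑ i, ∑ j, (G.g x)⁻¹ i j * G.ricci i j x

/-- `Ric ≥ c` as quadratic forms. -/
def RicciGE (c : ℝ) : Prop :=
  ∀ x v : Rn n, c * (v ⬝ᵥ (G.g x).mulVec v) ≤ ∑ i, ∑ j, G.ricci i j x * v i * v j

/-- Completeness: every Cauchy sequence for the Riemannian distance converges. -/
def Complete : Prop :=
  ∀ u : ℕ → Rn n, (∀ ε > 0, ∃ N, ∀ j ≥ N, ∀ k ≥ N, G.dist (u j) (u k) < ε) →
    ∃ x, Tendsto (fun j => G.dist (u j) x) atTop (𝓝 0)

end RMetric

/-- `φ` is a Borel pointed `ε`-Gromov–Hausdorff approximation from the pointed space `(M,d,p)` to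
the pointed metric space `(X,x)`: it maps `p` close to `x`, on the ball of radius `1/ε` about `p`
it distorts distances by at most `ε`, and the image of that ball is `ε`-dense in the ball of
radius `1/ε - ε` about `x`. -/
structure IsGHApprox {M X : Type} [MeasurableSpace M] [MetricSpace X] [MeasurableSpace X]
    (d : M → M → ℝ) (p : M) (x : X) (ε : ℝ) (φ : M → X) : Prop where
  measurable : Measurable φ
  base : dist (φ p) x ≤ ε
  isom : ∀ y z, d p y < 1 / ε → d p z < 1 / ε → |dist (φ y) (φ z) - d y z| ≤ ε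
  dense : ∀ w, dist x w < 1 / ε - ε → ∃ y, d p y < 1 / ε ∧ dist (φ y) w ≤ ε

/-- A sequence of pointed Riemannian metrics on coordinate space together with Borel pointed
Gromov–Hausdorff approximations to `(X,x)` whose error tends to zero. -/
def GHConverges {n : ℕ} (G : ℕ → RMetric n) (p : ℕ → Rn n) {X : Type} [MetricSpace X]
    [MeasurableSpace X] (x : X) (ε : ℕ → ℝ) (φ : ℕ → Rn n → X) : Prop :=
  (∀ j, 0 < ε j) ∧ Tendsto ε atTop (𝓝 0) ∧ ∀ j, IsGHApprox (G j).dist (p j) x (ε j) (φ j)

/-- The integral of `f` against the transported measure `φ_*(R dv)`, where `R dv` is restricted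
to the ball of radius `1/ε` about `p`, on which `φ` is an approximation. -/
noncomputable def transported {n : ℕ} (G : RMetric n) (p : Rn n) {X : Type} (ε : ℝ)
    (φ : Rn n → X) (f : X → ℝ) : ℝ :=
  ∫ y in {y | G.dist p y < 1 / ε}, f (φ y) * G.scal y ∂G.vol

/-- `L` is integration against a signed Radon measure
`R ℋⁿ + θ ℋⁿ⁻¹⌞Σ + ρ ℋⁿ⁻²⌞S` with arbitrary sets `Σ`, `S` and arbitrary locally integrable
densities. (The normalisation of the Hausdorff measures can be absorbed in the densities.) -/
def HasForm (n : ℕ) (X : Type) [MetricSpace X] [MeasurableSpace X] [BorelSpace X]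
    (L : (X → ℝ) → ℝ) : Prop :=
  ∃ (R θ ρ : X → ℝ) (Sig S : Set X),
    LocallyIntegrable R (μH[(n : ℝ)]) ∧
    LocallyIntegrable θ ((μH[(n : ℝ) - 1]).restrict Sig) ∧
    LocallyIntegrable ρ ((μH[(n : ℝ) - 2]).restrict S) ∧
    ∀ f : X → ℝ, Continuous f → HasCompactSupport f →
      L f = ∫ x, f x * R x ∂(μH[(n : ℝ)]) + ∫ x in Sig, f x * θ x ∂(μH[(n : ℝ) - 1])
        + ∫ x in S, f x * ρ x ∂(μH[(n : ℝ) - 2])

end Pool.Agent.H879R2.SC
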