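import Pool.Agent.H879R2.SC.Defs

set_option autoImplicit false

namespace Pool.Agent.H879R2.SC

open MeasureTheory Filter Set
open scoped Topology ContDiff

variable {n : ℕ}

/-- The gradient vector of a separable function with partial derivatives `A i (x i)`. -/
noncomputable def avec (A : Fin n → ℝ → ℝ) (x : Rn n) : Rn n := fun i => A i (x i)

/-- The metric of the graph of a separable function with partial derivatives `A i (x i)`. -/
noncomputable def gmat (A : Fin n → ℝ → ℝ) (x : Rn n) : Matrix (Fin n) (Fin n) ℝ :=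
  1 + Matrix.vecMulVec (avec A x) (avec A x)

lemma quad (A : Fin n → ℝ → ℝ) (x v : Rn n) :
    v ⬝ᵥ (gmat A x).mulVec v = (∑ i, v i ^ 2) + (∑ i, A i (x i) * v i) ^ 2 := by
  unfold gmat
  rw [Matrix.add_mulVec, Matrix.one_mulVec, dotProduct_add, Matrix.vecMulVec_mulVec]
  congr 1
  · simp [dotProduct, pow_two]
  · simp only [dotProduct, avec, op_smul_eq_smul, Pi.smul_apply, smul_eq_mul]
    rw [pow_two, Finset.sum_mul]
    apply Finset.sum_congr rfl
    intro i _
    ring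

/-- Conditions on the data of a graph metric. -/
structure Good (A : Fin n → ℝ → ℝ) : Prop where
  cont : ∀ i, Continuous (A i)
  bdd : ∀ i s, |A i s| ≤ 1

lemma le_tnorm (A : Fin n → ℝ → ℝ) (x v : Rn n) : ‖v‖ ≤ tnorm (gmat A x) v := by
  unfold tnorm
  rw [quad, pi_norm_le_iff_of_nonneg (Real.sqrt_nonneg _)]
  intro i
  apply Real.le_sqrt_of_sq_le
  rw [Real.norm_eq_abs, sq_abs]
  have h1 : v i ^ 2 ≤ ∑ i, v i ^ 2 :=
    Finset.single_le_sum (f := fun i => v i ^ 2) (fun _ _ => sq_nonneg _) (Finset.mem_univ i)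
  nlinarith [sq_nonneg (∑ i, A i (x i) * v i)]

lemma sum_abs_le (c v : Rn n) (C : ℝ) (hc : ∀ i, |c i| ≤ C) :
    |∑ i, c i * v i| ≤ n * C * ‖v‖ := by
  calc |∑ i, c i * v i| ≤ ∑ i, |c i * v i| := Finset.abs_sum_le_sum_abs _ _
    _ ≤ ∑ _i : Fin n, C * ‖v‖ := by
        apply Finset.sum_le_sum
        intro i _
        rw [abs_mul]
        exact mul_le_mul (hc i) (norm_le_pi_norm v i) (abs_nonneg _) ((abs_nonneg _).trans (hc i))
    _ = n * C * ‖v‖ := by simp; ring

lemma tnorm_le {A : Fin n → ℝ → ℝ} (hA : Good A) (x v : Rn n) :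
    tnorm (gmat A x) v ≤ (n + 1) * ‖v‖ := by
  unfold tnorm
  rw [quad]
  apply Real.sqrt_le_iff.2
  refine ⟨by positivity, ?_⟩
  have h1 : ∑ i, v i ^ 2 ≤ n * ‖v‖ ^ 2 := by
    calc ∑ i, v i ^ 2 ≤ ∑ _i : Fin n, ‖v‖ ^ 2 := by
          apply Finset.sum_le_sum
          intro i _
          have := norm_le_pi_norm v i
          rw [← sq_abs (v i)]
          exact pow_le_pow_left₀ (abs_nonneg _) this 2
      _ = n * ‖v‖ ^ 2 := by simp
  have h2 := sum_abs_le (fun i => A i (x i)) v 1 (fun i => hA.bdd i _)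
  have h3 : (∑ i, A i (x i) * v i) ^ 2 ≤ (n * 1 * ‖v‖) ^ 2 := by
    rw [← sq_abs]
    exact pow_le_pow_left₀ (abs_nonneg _) h2 2
  have h4 : (0:ℝ) ≤ n := Nat.cast_nonneg n
  nlinarith [norm_nonneg v, mul_nonneg h4 (sq_nonneg ‖v‖), sq_nonneg ‖v‖]

lemma sqrt_add_sq_le (p s t : ℝ) (hp : 0 ≤ p) :
    Real.sqrt (p + s ^ 2) ≤ Real.sqrt (p + t ^ 2) + |s - t| := by
  apply Real.sqrt_le_iff.2
  refine ⟨by positivity, ?_⟩
  have h1 : Real.sqrt (p + t ^ 2) ^ 2 = p + t ^ 2 := Real.sq_sqrt (by positivity)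
  have h2 : |t| ≤ Real.sqrt (p + t ^ 2) := by
    apply Real.le_sqrt_of_sq_le
    rw [sq_abs]; linarith
  have h3 : |s - t| ^ 2 = (s - t) ^ 2 := sq_abs _
  have h4 : t * (s - t) ≤ |t| * |s - t| := by
    rw [← abs_mul]; exact le_abs_self _
  have h5 : |t| * |s - t| ≤ Real.sqrt (p + t ^ 2) * |s - t| :=
    mul_le_mul_of_nonneg_right h2 (abs_nonneg _)
  nlinarith

lemma tnorm_compare {A A' : Fin n → ℝ → ℝ} {δ : ℝ} (h : ∀ i s, |A i s - A' i s| ≤ δ)
    (x v : Rn n) : tnorm (gmat A x) v ≤ (1 + n * δ) * tnorm (gmat A' x) v := by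
  have h0 := le_tnorm A' x v
  unfold tnorm at *
  rw [quad] at *
  rw [quad]
  have h1 := sqrt_add_sq_le (∑ i, v i ^ 2) (∑ i, A i (x i) * v i) (∑ i, A' i (x i) * v i)
    (Finset.sum_nonneg fun _ _ => sq_nonneg _)
  have h2 : |∑ i, A i (x i) * v i - ∑ i, A' i (x i) * v i| ≤ n * δ * ‖v‖ := by
    rw [← Finset.sum_sub_distrib]
    have := sum_abs_le (fun i => A i (x i) - A' i (x i)) v δ (fun i => h i _)
    simpa [sub_mul] using this
  rcases isEmpty_or_nonempty (Fin n) with hn | ⟨⟨i⟩⟩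
  · simp
  · have hδ : 0 ≤ δ := (abs_nonneg _).trans (h i 0)
    have h4 : (0:ℝ) ≤ n := Nat.cast_nonneg n
    have h3 : n * δ * ‖v‖ ≤ n * δ * Real.sqrt (∑ i, v i ^ 2 + (∑ i, A' i (x i) * v i) ^ 2) :=
      mul_le_mul_of_nonneg_left h0 (by positivity)
    linarith

lemma continuous_speed {A : Fin n → ℝ → ℝ} (hA : ∀ i, Continuous (A i)) {γ : ℝ → Rn n}
    (hγ : ContDiff ℝ 1 γ) : Continuous (fun t => tnorm (gmat A (γ t)) (deriv γ t)) := by
  unfold tnorm
  simp_rw [quad]
  have h1 : Continuous (deriv γ) := hγ.continuous_deriv le_rfl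
  have h2 : Continuous γ := hγ.continuous
  have h3 : ∀ i, Continuous (fun t => deriv γ t i) := fun i => (continuous_apply i).comp h1
  have h4 : ∀ i, Continuous (fun t => A i (γ t i)) := fun i =>
    (hA i).comp ((continuous_apply i).comp h2)
  apply Real.continuous_sqrt.comp
  apply Continuous.add
  · exact continuous_finsetSum _ fun i _ => (h3 i).pow 2
  · exact (continuous_finsetSum _ fun i _ => (h4 i).mul (h3 i)).pow 2

lemma norm_le_of_hasPath {A : Fin n → ℝ → ℝ} (hA : ∀ i, Continuous (A i)) {x y : Rn n} {ℓ : ℝ}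
    (h : HasPath (gmat A) x y ℓ) : ‖y - x‖ ≤ ℓ := by
  induction h with
  | arc γ hγ =>
    have h1 : Continuous (deriv γ) := hγ.continuous_deriv le_rfl
    have h2 : ∫ t in (0:ℝ)..1, deriv γ t = γ 1 - γ 0 := by
      apply intervalIntegral.integral_deriv_eq_sub
      · intro t _
        exact (hγ.differentiable (by norm_num)).differentiableAt
      · exact h1.intervalIntegrable _ _
    rw [← h2]
    calc ‖∫ t in (0:ℝ)..1, deriv γ t‖ ≤ ∫ t in (0:ℝ)..1, ‖deriv γ t‖ :=
          intervalIntegral.norm_integral_le_integral_norm (by norm_num)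
      _ ≤ ∫ t in (0:ℝ)..1, tnorm (gmat A (γ t)) (deriv γ t) := by
          apply intervalIntegral.integral_mono_on (by norm_num)
          · exact h1.norm.intervalIntegrable _ _
          · exact (continuous_speed hA hγ).intervalIntegrable _ _
          · intro t _
            exact le_tnorm A _ _
  | @trans x y z a b _ _ h1 h2 =>
    calc ‖z - x‖ = ‖(z - y) + (y - x)‖ := by congr 1; abel
      _ ≤ ‖z - y‖ + ‖y - x‖ := norm_add_le _ _
      _ ≤ a + b := by linarith

lemma hasPath_nonneg {A : Fin n → ℝ → ℝ} (hA : ∀ i, Continuous (A i)) {x y : Rn n} {ℓ : ℝ}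
    (h : HasPath (gmat A) x y ℓ) : 0 ≤ ℓ := (norm_nonneg _).trans (norm_le_of_hasPath hA h)

/-- The straight segment. -/
lemma exists_hasPath {A : Fin n → ℝ → ℝ} (hA : Good A) (x y : Rn n) :
    ∃ ℓ ≤ (n + 1) * ‖y - x‖, HasPath (gmat A) x y ℓ := by
  let γ : ℝ → Rn n := fun t => x + t • (y - x)
  have hγ : ContDiff ℝ 1 γ := by fun_prop
  have hd : ∀ t, deriv γ t = y - x := by
    intro t
    have : HasDerivAt γ ((1:ℝ) • (y - x)) t :=
      ((hasDerivAt_id t).smul_const (y - x)).const_add x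
    rw [this.deriv, one_smul]
  have h := HasPath.arc (g := gmat A) γ hγ
  have h0 : γ 0 = x := by simp [γ]
  have h1 : γ 1 = y := by simp [γ]
  rw [h0, h1] at h
  refine ⟨_, ?_, h⟩
  calc ∫ t in (0:ℝ)..1, tnorm (gmat A (γ t)) (deriv γ t)
      ≤ ∫ t in (0:ℝ)..1, (n + 1) * ‖y - x‖ := by
        apply intervalIntegral.integral_mono_on (by norm_num)
        · exact (continuous_speed hA.cont hγ).intervalIntegrable _ _
        · exact intervalIntegrable_const
        · intro t _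
          have := tnorm_le hA (γ t) (deriv γ t)
          rwa [hd t] at this ⊢
    _ = (n + 1) * ‖y - x‖ := by simp

lemma bddBelow_paths {A : Fin n → ℝ → ℝ} (hA : ∀ i, Continuous (A i)) (x y : Rn n) :
    BddBelow {ℓ | HasPath (gmat A) x y ℓ} := ⟨0, fun _ h => hasPath_nonneg hA h⟩

lemma norm_le_rdist {A : Fin n → ℝ → ℝ} (hA : Good A) (x y : Rn n) :
    ‖y - x‖ ≤ rdist (gmat A) x y := by
  obtain ⟨ℓ, _, h⟩ := exists_hasPath hA x y
  exact le_csInf ⟨ℓ, h⟩ fun _ h => norm_le_of_hasPath hA.cont h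

lemma rdist_le_norm {A : Fin n → ℝ → ℝ} (hA : Good A) (x y : Rn n) :
    rdist (gmat A) x y ≤ (n + 1) * ‖y - x‖ := by
  obtain ⟨ℓ, h1, h⟩ := exists_hasPath hA x y
  exact (csInf_le (bddBelow_paths hA.cont x y) h).trans h1

lemma rdist_nonneg {A : Fin n → ℝ → ℝ} (hA : Good A) (x y : Rn n) :
    0 ≤ rdist (gmat A) x y := (norm_nonneg _).trans (norm_le_rdist hA x y)

lemma rdist_self {A : Fin n → ℝ → ℝ} (hA : Good A) (x : Rn n) :
    rdist (gmat A) x x = 0 := by
  apply le_antisymm _ (rdist_nonneg hA x x)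
  have := rdist_le_norm hA x x
  simpa using this

lemma hasPath_symm {A : Fin n → ℝ → ℝ} {x y : Rn n} {ℓ : ℝ}
    (h : HasPath (gmat A) x y ℓ) : HasPath (gmat A) y x ℓ := by
  induction h with
  | arc γ hγ =>
    let η : ℝ → Rn n := fun t => γ (1 - t)
    have hη : ContDiff ℝ 1 η := hγ.comp (by fun_prop)
    have h := HasPath.arc (g := gmat A) η hη
    have h0 : η 0 = γ 1 := by simp [η]
    have h1 : η 1 = γ 0 := by simp [η]
    rw [h0, h1] at h
    convert h using 1
    have hd : ∀ t, deriv η t = - deriv γ (1 - t) := by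
      intro t
      have h2 : HasDerivAt γ (deriv γ (1 - t)) (1 - t) :=
        ((hγ.differentiable (by norm_num)).differentiableAt).hasDerivAt
      have h3 : HasDerivAt (fun t : ℝ => 1 - t) (-1) t := by
        simpa using (hasDerivAt_id t).const_sub 1
      have h4 := h2.scomp t h3
      have h5 : HasDerivAt η ((-1 : ℝ) • deriv γ (1 - t)) t := h4
      rw [h5.deriv]; simp
    have h6 : ∀ t, tnorm (gmat A (η t)) (deriv η t)
        = (fun s => tnorm (gmat A (γ s)) (deriv γ s)) (1 - t) := by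
      intro t
      simp only [hd, η]
      unfold tnorm
      rw [quad, quad]
      congr 2
      · simp
      · simp
    simp_rw [h6]
    rw [intervalIntegral.integral_comp_sub_left (fun s => tnorm (gmat A (γ s)) (deriv γ s)) 1]
    simp
  | trans _ _ h1 h2 =>
    rw [add_comm]
    exact HasPath.trans h2 h1

lemma rdist_comm {A : Fin n → ℝ → ℝ} (x y : Rn n) :
    rdist (gmat A) x y = rdist (gmat A) y x := by
  unfold rdist
  congr 1
  ext ℓ
  exact ⟨hasPath_symm, hasPath_symm⟩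

lemma rdist_triangle {A : Fin n → ℝ → ℝ} (hA : Good A) (x y z : Rn n) :
    rdist (gmat A) x z ≤ rdist (gmat A) x y + rdist (gmat A) y z := by
  apply le_of_forall_pos_le_add
  intro ε hε
  obtain ⟨ℓ0, _, h0⟩ := exists_hasPath hA x y
  obtain ⟨ℓ0', _, h0'⟩ := exists_hasPath hA y z
  obtain ⟨a, ha, ha'⟩ := exists_lt_of_csInf_lt (s := {ℓ | HasPath (gmat A) x y ℓ}) ⟨ℓ0, h0⟩
    (lt_add_of_pos_right _ (half_pos hε))
  obtain ⟨b, hb, hb'⟩ := exists_lt_of_csInf_lt (s := {ℓ | HasPath (gmat A) y z ℓ}) ⟨ℓ0', h0'⟩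
    (lt_add_of_pos_right _ (half_pos hε))
  have h1 : rdist (gmat A) x z ≤ a + b := csInf_le (bddBelow_paths hA.cont x z)
    (HasPath.trans ha hb)
  unfold rdist at *
  linarith

lemma hasPath_compare {A A' : Fin n → ℝ → ℝ} (hA : ∀ i, Continuous (A i))
    (hA' : ∀ i, Continuous (A' i)) {c : ℝ}
    (hc : ∀ x v, tnorm (gmat A x) v ≤ c * tnorm (gmat A' x) v) {x y : Rn n} {ℓ : ℝ}
    (h : HasPath (gmat A') x y ℓ) : ∃ ℓ' ≤ c * ℓ, HasPath (gmat A) x y ℓ' := by
  induction h with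
  | arc γ hγ =>
    refine ⟨_, ?_, HasPath.arc (g := gmat A) γ hγ⟩
    rw [← intervalIntegral.integral_const_mul]
    apply intervalIntegral.integral_mono_on (by norm_num)
    · exact (continuous_speed hA hγ).intervalIntegrable _ _
    · exact ((continuous_speed hA' hγ).const_mul c |>.intervalIntegrable _ _)
    · intro t _
      exact hc _ _
  | trans _ _ h1 h2 =>
    obtain ⟨a, ha, ha'⟩ := h1
    obtain ⟨b, hb, hb'⟩ := h2
    exact ⟨a + b, by linarith, HasPath.trans ha' hb'⟩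

lemma rdist_compare {A A' : Fin n → ℝ → ℝ} (hA : Good A) (hA' : Good A') {δ : ℝ} (hδ : 0 ≤ δ)
    (h : ∀ i s, |A i s - A' i s| ≤ δ) (x y : Rn n) :
    rdist (gmat A) x y ≤ (1 + n * δ) * rdist (gmat A') x y := by
  have hc : 0 < 1 + n * δ := by positivity
  have hc' : 0 ≤ (1 + n * δ) := hc.le
  rw [← div_le_iff₀' hc]
  obtain ⟨ℓ0, _, h0⟩ := exists_hasPath hA' x y
  apply le_csInf ⟨ℓ0, h0⟩
  intro ℓ hℓ
  obtain ⟨ℓ', h1, h2⟩ := hasPath_compare hA.cont hA'.cont (fun x v => tnorm_compare h x v) hℓ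
  rw [div_le_iff₀' hc]
  exact (csInf_le (bddBelow_paths hA.cont x y) h2).trans h1

lemma rdist_diff {A A' : Fin n → ℝ → ℝ} (hA : Good A) (hA' : Good A') {δ : ℝ} (hδ : 0 ≤ δ)
    (h : ∀ i s, |A i s - A' i s| ≤ δ) (x y : Rn n) :
    |rdist (gmat A) x y - rdist (gmat A') x y| ≤ n * δ * ((n + 1) * ‖y - x‖) := by
  have h1 := rdist_compare hA hA' hδ h x y
  have h2 := rdist_compare hA' hA hδ (fun i s => by rw [abs_sub_comm]; exact h i s) x y
  have h3 := rdist_le_norm hA x y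
  have h4 := rdist_le_norm hA' x y
  have h5 : 0 ≤ n * δ := by positivity
  have h6 := mul_le_mul_of_nonneg_left h3 h5
  have h7 := mul_le_mul_of_nonneg_left h4 h5
  rw [abs_le]
  constructor <;> linarith

end Pool.Agent.H879R2.SC
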