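import Pool.Agent.H879R2.SC.Dist

set_option autoImplicit false

namespace Pool.Agent.H879R2.SC

open MeasureTheory Filter Set
open scoped Topology ContDiff

variable {n : ℕ}

/-- The limit space: coordinate space with the length distance of a continuous metric field. -/
@[ext] structure XSp (A : Fin n → ℝ → ℝ) (hA : Good A) where
  val : Rn n

section
variable {A : Fin n → ℝ → ℝ} {hA : Good A}

noncomputable instance : MetricSpace (XSp A hA) where
  dist x y := rdist (gmat A) x.val y.val
  dist_self x := rdist_self hA x.val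
  dist_comm x y := rdist_comm x.val y.val
  dist_triangle x y z := rdist_triangle hA x.val y.val z.val
  eq_of_dist_eq_zero := by
    intro x y h
    have h1 := norm_le_rdist hA x.val y.val
    have h2 : rdist (gmat A) x.val y.val = 0 := h
    rw [h2] at h1
    have h3 : y.val - x.val = 0 := norm_le_zero_iff.1 h1
    exact XSp.ext (sub_eq_zero.1 h3).symm

noncomputable instance : MeasurableSpace (XSp A hA) := borel _
instance : BorelSpace (XSp A hA) := ⟨rfl⟩

lemma XSp.dist_def (x y : XSp A hA) : dist x y = rdist (gmat A) x.val y.val := rfl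

lemma XSp.lipschitz_mk : LipschitzWith ((n : NNReal) + 1) (XSp.mk (A := A) (hA := hA)) := by
  apply LipschitzWith.of_dist_le_mul
  intro x y
  rw [XSp.dist_def, dist_comm x y, dist_eq_norm]
  exact rdist_le_norm hA x y

lemma XSp.lipschitz_val : LipschitzWith 1 (XSp.val (A := A) (hA := hA)) := by
  apply LipschitzWith.of_dist_le_mul
  intro x y
  rw [XSp.dist_def, dist_comm, dist_eq_norm]
  simpa using norm_le_rdist hA x.val y.val

instance : ProperSpace (XSp A hA) := by
  constructor
  intro x r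
  have h1 : IsCompact (XSp.mk (A := A) (hA := hA) '' Metric.closedBall x.val r) :=
    (isCompact_closedBall _ _).image XSp.lipschitz_mk.continuous
  apply h1.of_isClosed_subset Metric.isClosed_closedBall
  intro y hy
  refine ⟨y.val, ?_, rfl⟩
  rw [Metric.mem_closedBall] at *
  have := XSp.lipschitz_val.dist_le_mul y x
  simp only [NNReal.coe_one, one_mul] at this
  exact this.trans hy

end

/-- Compactness along an ultrafilter. -/
lemma exists_ulim {X : Type} [TopologicalSpace X] (𝒰 : Ultrafilter ℕ) {s : Set X}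
    (hs : IsCompact s) (u : ℕ → X) (h : ∀ᶠ j in (𝒰 : Filter ℕ), u j ∈ s) :
    ∃ x ∈ s, Tendsto u 𝒰 (𝓝 x) := by
  rw [isCompact_iff_ultrafilter_le_nhds] at hs
  obtain ⟨x, hx, h2⟩ := hs (𝒰.map u) (by
    rw [Ultrafilter.coe_map, le_principal_iff, mem_map]
    exact h)
  exact ⟨x, hx, h2⟩

theorem exists_limit_iso {X : Type} [MetricSpace X] [ProperSpace X] [MeasurableSpace X]
    {d : ℕ → Rn n → Rn n → ℝ} {dinf : Rn n → Rn n → ℝ}
    (hd : ∀ y z, Tendsto (fun j => d j y z) atTop (𝓝 (dinf y z)))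
    (hlow : ∀ j y z, ‖z - y‖ ≤ d j y z) (hup : ∀ j y z, d j y z ≤ (n + 1) * ‖z - y‖)
    {x : X} {ε : ℕ → ℝ} {φ : ℕ → Rn n → X} (hε : ∀ j, 0 < ε j) (hε0 : Tendsto ε atTop (𝓝 0))
    (hφ : ∀ j, IsGHApprox (d j) 0 x (ε j) (φ j)) (𝒰 : Ultrafilter ℕ)
    (h𝒰 : (𝒰 : Filter ℕ) ≤ atTop) :
    ∃ I : Rn n → X, (∀ y, Tendsto (fun j => φ j y) 𝒰 (𝓝 (I y))) ∧
      (∀ y z, dist (I y) (I z) = dinf y z) ∧ Function.Surjective I := by
  have hinv : Tendsto (fun j => 1 / ε j) atTop atTop := by
    simp_rw [one_div]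
    apply Tendsto.inv_tendsto_nhdsGT_zero
    rw [tendsto_nhdsWithin_iff]
    exact ⟨hε0, Eventually.of_forall hε⟩
  have hin : ∀ y, ∀ᶠ j in atTop, d j 0 y < 1 / ε j := by
    intro y
    filter_upwards [hinv.eventually_gt_atTop ((n + 1) * ‖y‖)] with j hj
    have := hup j 0 y
    rw [sub_zero] at this
    exact this.trans_lt hj
  have hε1 : ∀ᶠ j in atTop, ε j < 1 := hε0.eventually_lt_const (by norm_num)
  have hlim : ∀ y, ∃ w, Tendsto (fun j => φ j y) 𝒰 (𝓝 w) := by
    intro y
    have hb : ∀ᶠ j in (𝒰 : Filter ℕ), φ j y ∈ Metric.closedBall x ((n + 1) * ‖y‖ + 2) := by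
      apply h𝒰
      filter_upwards [hin y, hin 0, hε1] with j h1 h2 h3
      rw [Metric.mem_closedBall]
      have h4 := (hφ j).isom y 0 h1 h2
      have h5 := (hφ j).base
      have h6 := hup j y 0
      rw [zero_sub, norm_neg] at h6
      have h7 := (abs_le.1 h4).2
      have h8 := dist_triangle (φ j y) (φ j 0) x
      linarith
    obtain ⟨w, _, hw⟩ := exists_ulim 𝒰 (isCompact_closedBall _ _) _ hb
    exact ⟨w, hw⟩
  choose I hI using hlim
  refine ⟨I, hI, ?_, ?_⟩
  · intro y z
    have h1 : Tendsto (fun j => dist (φ j y) (φ j z)) 𝒰 (𝓝 (dist (I y) (I z))) :=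
      (hI y).dist (hI z)
    have h2 : Tendsto (fun j => dist (φ j y) (φ j z)) 𝒰 (𝓝 (dinf y z)) := by
      have h3 : Tendsto (fun j => dist (φ j y) (φ j z) - d j y z) atTop (𝓝 0) := by
        apply squeeze_zero_norm' _ hε0
        filter_upwards [hin y, hin z] with j h1 h2
        exact (hφ j).isom y z h1 h2
      have h4 := h3.add (hd y z)
      simp only [sub_add_cancel, zero_add] at h4
      exact h4.mono_left h𝒰
    exact tendsto_nhds_unique h1 h2
  · intro w
    have hsub : Tendsto (fun j => 1 / ε j - ε j) atTop atTop := by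
      apply tendsto_atTop_mono' _ _ (tendsto_atTop_add_const_right _ (-1) hinv)
      filter_upwards [hε1] with j hj
      linarith
    have hev : ∀ᶠ j in atTop, dist x w < 1 / ε j - ε j := hsub.eventually_gt_atTop _
    have hex : ∀ j, ∃ y, dist x w < 1 / ε j - ε j → d j 0 y < 1 / ε j ∧ dist (φ j y) w ≤ ε j := by
      intro j
      by_cases h : dist x w < 1 / ε j - ε j
      · obtain ⟨y, hy⟩ := (hφ j).dense w h
        exact ⟨y, fun _ => hy⟩
      · exact ⟨0, fun h' => absurd h' h⟩
    choose y hy using hex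
    have hb : ∀ᶠ j in (𝒰 : Filter ℕ), y j ∈ Metric.closedBall (0 : Rn n) (dist x w + 3) := by
      apply h𝒰
      filter_upwards [hev, hin 0, hε1] with j h1 h2 h3
      obtain ⟨h4, h5⟩ := hy j h1
      rw [Metric.mem_closedBall, dist_zero_right]
      have h6 := hlow j 0 (y j)
      rw [sub_zero] at h6
      have h7 := (hφ j).isom 0 (y j) h2 h4
      have h8 := (abs_le.1 h7).1
      have h9 := (hφ j).base
      have h10 := dist_triangle (φ j 0) x (φ j (y j))
      have h11 := dist_triangle x w (φ j (y j))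
      rw [dist_comm w] at h11
      linarith
    obtain ⟨y0, _, hy0⟩ := exists_ulim 𝒰 (isCompact_closedBall _ _) _ hb
    refine ⟨y0, ?_⟩
    have h1 : Tendsto (fun j => dist (φ j y0) w) 𝒰 (𝓝 (dist (I y0) w)) :=
      (hI y0).dist tendsto_const_nhds
    have h2 : Tendsto (fun j => dist (φ j y0) w) 𝒰 (𝓝 0) := by
      have hε' : Tendsto ε 𝒰 (𝓝 0) := hε0.mono_left h𝒰
      have hn : Tendsto (fun j => ‖y j - y0‖) 𝒰 (𝓝 0) := by
        have := (hy0.sub_const y0).norm
        simpa using this
      have hbd : Tendsto (fun j => (n + 1) * ‖y j - y0‖ + 2 * ε j) 𝒰 (𝓝 0) := by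
        have := (hn.const_mul ((n:ℝ) + 1)).add (hε'.const_mul 2)
        simpa using this
      apply squeeze_zero' (Eventually.of_forall fun _ => dist_nonneg) _ hbd
      apply h𝒰
      filter_upwards [hev, hin y0] with j h1 h2
      obtain ⟨h4, h5⟩ := hy j h1
      have h7 := (hφ j).isom y0 (y j) h2 h4
      have h8 := (abs_le.1 h7).2
      have h9 := hup j y0 (y j)
      have h10 := dist_triangle (φ j y0) (φ j (y j)) w
      linarith
    have h3 := tendsto_nhds_unique h1 h2
    exact dist_eq_zero.1 h3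

end Pool.Agent.H879R2.SC
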