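import Pool.Agent.H879R2.SC.Weak
import Pool.Agent.H879R2.SC.Limit
import Pool.Agent.H879R2.SC.Cantor

set_option autoImplicit false

namespace Pool.Agent.H879R2.SC

open MeasureTheory Filter Set
open scoped Topology

section
variable {m : ℕ} (ν : Measure ℝ) [IsProbabilityMeasure ν]

/-- The sequence of metrics. -/
noncomputable def GG (m : ℕ) (ν : Measure ℝ) [IsProbabilityMeasure ν] (j : ℕ) : RMetric (m + 2) :=
  ofGraph (AF m (FS ν ((j:ℝ) + 1))) (AF_contDiff (contDiff_FS ν (by positivity)))

lemma GG_good (j : ℕ) : Good (AF m (FS ν ((j:ℝ) + 1))) :=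
  AF_good (contDiff_FS ν (by positivity)).continuous (abs_FS_le ν _)

lemma GG_dist (j : ℕ) (x y : Rn (m + 2)) :
    (GG m ν j).dist x y = rdist (gmat (AF m (FS ν ((j:ℝ) + 1)))) x y := rfl

lemma GG_low (j : ℕ) (x y : Rn (m + 2)) : ‖y - x‖ ≤ (GG m ν j).dist x y :=
  norm_le_rdist (GG_good ν j) x y

lemma GG_up (j : ℕ) (x y : Rn (m + 2)) :
    (GG m ν j).dist x y ≤ (((m + 2 : ℕ) : ℝ) + 1) * ‖y - x‖ :=
  rdist_le_norm (GG_good ν j) x y

lemma GG_complete (j : ℕ) : (GG m ν j).Complete := by
  intro u hu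
  have hc : CauchySeq u := by
    rw [Metric.cauchySeq_iff]
    intro ε hε
    obtain ⟨N, hN⟩ := hu ε hε
    refine ⟨N, fun a ha b hb => ?_⟩
    rw [dist_comm, dist_eq_norm]
    exact (GG_low ν j (u a) (u b)).trans_lt (hN a ha b hb)
  obtain ⟨x, hx⟩ := cauchySeq_tendsto_of_complete hc
  refine ⟨x, ?_⟩
  have h1 : Tendsto (fun k => (((m + 2 : ℕ) : ℝ) + 1) * ‖x - u k‖) atTop (𝓝 0) := by
    have h2 : Tendsto (fun k => ‖x - u k‖) atTop (𝓝 0) := by
      have := (hx.const_sub x).norm
      simpa using this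
    simpa using h2.const_mul _
  exact squeeze_zero (fun k => (norm_nonneg _).trans (GG_low ν j (u k) x))
    (fun k => GG_up ν j (u k) x) h1

lemma continuous_GG_dist (j : ℕ) : Continuous (fun y => (GG m ν j).dist 0 y) := by
  have h : LipschitzWith (((m + 2 : ℕ) : NNReal) + 1) (fun y => (GG m ν j).dist 0 y) := by
    apply LipschitzWith.of_le_add_mul
    intro x y
    have h1 := rdist_triangle (GG_good (m := m) ν j) 0 y x
    have h2 := GG_up (m := m) ν j y x
    rw [GG_dist] at h2
    rw [dist_eq_norm]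
    change rdist (gmat (AF m (FS ν ((j:ℝ) + 1)))) 0 x
      ≤ rdist (gmat (AF m (FS ν ((j:ℝ) + 1)))) 0 y + _
    push_cast at h2 ⊢
    linarith
  exact h.continuous

lemma GG_vol (j : ℕ) : volume (Metric.ball (0 : Rn (m + 2)) (1 / (((m + 2 : ℕ) : ℝ) + 1))) ≤
    (GG m ν j).vol {y | (GG m ν j).dist 0 y < 1} := by
  have h1 : Metric.ball (0 : Rn (m + 2)) (1 / (((m + 2 : ℕ) : ℝ) + 1))
      ⊆ {y | (GG m ν j).dist 0 y < 1} := by
    intro y hy
    rw [Metric.mem_ball, dist_zero_right, lt_div_iff₀ (by positivity)] at hy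
    have h2 := GG_up (m := m) ν j 0 y
    rw [sub_zero] at h2
    change (GG m ν j).dist 0 y < 1
    linarith
  refine le_trans ?_ (measure_mono h1)
  unfold RMetric.vol
  rw [withDensity_apply _ measurableSet_ball]
  have h2 : ∀ x : Rn (m + 2), (1 : ENNReal) ≤
      ENNReal.ofReal (Real.sqrt ((GG m ν j).g x).det) := by
    intro x
    change (1 : ENNReal) ≤ ENNReal.ofReal (Real.sqrt (gmat (AF m (FS ν ((j:ℝ) + 1))) x).det)
    rw [det_gmat, ← ENNReal.ofReal_one]
    exact ENNReal.ofReal_le_ofReal (Real.one_le_sqrt.2 (one_le_Wf _ _))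
  calc volume (Metric.ball (0 : Rn (m + 2)) (1 / (((m + 2 : ℕ) : ℝ) + 1)))
      = ∫⁻ _x in Metric.ball (0 : Rn (m + 2)) (1 / (((m + 2 : ℕ) : ℝ) + 1)), 1 := by
        rw [setLIntegral_one]
    _ ≤ _ := lintegral_mono fun x => h2 x

lemma transported_eq {X : Type} (j : ℕ) (ε : ℝ) (φ : Rn (m + 2) → X) (f : X → ℝ) :
    transported (GG m ν j) 0 ε φ f
      = ∫ y in {y | (GG m ν j).dist 0 y < 1 / ε}, f (φ y) * wj m ν j y := by
  have hj : (0:ℝ) < (j:ℝ) + 1 := by positivity
  have hS : MeasurableSet {y | (GG m ν j).dist 0 y < 1 / ε} :=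
    (isOpen_lt (continuous_GG_dist ν j) continuous_const).measurableSet
  unfold transported RMetric.vol
  have hdet : ∀ x, ((GG m ν j).g x).det = Wf (AF m (FS ν ((j:ℝ) + 1))) x :=
    fun x => det_gmat _ x
  have hmeas : Measurable (fun x => ENNReal.ofReal (Real.sqrt ((GG m ν j).g x).det)) := by
    simp_rw [hdet]
    exact ((continuous_Wf (contDiff_FS ν hj).continuous).sqrt.measurable).ennreal_ofReal
  rw [setIntegral_withDensity_eq_setIntegral_toReal_smul hmeas (by simp) _ hS]
  apply setIntegral_congr_fun hS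
  intro y _
  have hsc : (GG m ν j).scal y = 2 * deriv (FS ν ((j:ℝ) + 1)) (y 0) * deriv hf (y 1)
      * (Wf (AF m (FS ν ((j:ℝ) + 1))) y)⁻¹ ^ 2 := scal_eq (contDiff_FS ν hj) y
  simp only [smul_eq_mul]
  rw [ENNReal.toReal_ofReal (Real.sqrt_nonneg _), hsc, hdet, wj, Qf]
  ring

variable {ν} (hat : ∀ x, ν {x} = 0)
include hat

lemma FD_good : Good (AF m (FD ν)) := AF_good (FD_continuous hat) (abs_FD_le ν)

/-- Passage to the limit in the transported curvature integrals. -/
lemma transported_lim (hs : ν (Icc 0 1)ᶜ = 0) {X : Type} [MetricSpace X] [ProperSpace X]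
    [MeasurableSpace X] [BorelSpace X] {x : X} {σ : ℕ → ℕ} (hσ : StrictMono σ)
    {ε : ℕ → ℝ} {φ : ℕ → Rn (m + 2) → X} (hε : ∀ j, 0 < ε j) (hε0 : Tendsto ε atTop (𝓝 0))
    (hφ : ∀ j, IsGHApprox (GG m ν (σ j)).dist 0 x (ε j) (φ j)) (𝒰 : Filter ℕ) [𝒰.NeBot]
    (h𝒰 : 𝒰 ≤ atTop) {I : Rn (m + 2) → X}
    (hI : ∀ y, Tendsto (fun j => φ j y) 𝒰 (𝓝 (I y)))
    (hId : ∀ y z, dist (I y) (I z) = rdist (gmat (AF m (FD ν))) y z)
    {f : X → ℝ} (hf : Continuous f) (hc : HasCompactSupport f) :
    Tendsto (fun j => transported (GG m ν (σ j)) 0 (ε j) (φ j) f) 𝒰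
      (𝓝 (∫ y, f (I y) ∂(kap ν (m + 1) (Qf m (FD ν))))) := by
  set N : ℝ := ((m + 2 : ℕ) : ℝ) + 1 with hN
  have hN0 : 0 < N := by positivity
  have hgood := FD_good (m := m) hat
  have hinv : Tendsto (fun j => 1 / ε j) atTop atTop := by
    simp_rw [one_div]
    apply Tendsto.inv_tendsto_nhdsGT_zero
    rw [tendsto_nhdsWithin_iff]
    exact ⟨hε0, Eventually.of_forall hε⟩
  have hε1 : ∀ᶠ j in atTop, ε j < 1 := hε0.eventually_lt_const (by norm_num)
  have hin : ∀ R : ℝ, ∀ᶠ j in atTop, ∀ y : Rn (m + 2), ‖y‖ ≤ R →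
      (GG m ν (σ j)).dist 0 y < 1 / ε j := by
    intro R
    filter_upwards [hinv.eventually_gt_atTop (N * R)] with j hj y hy
    have := GG_up (m := m) ν (σ j) 0 y
    rw [sub_zero] at this
    have h2 : N * ‖y‖ ≤ N * R := mul_le_mul_of_nonneg_left hy hN0.le
    exact (this.trans h2).trans_lt hj
  have hIlip : ∀ y z, dist (I y) (I z) ≤ N * ‖z - y‖ := by
    intro y z; rw [hId]; exact rdist_le_norm hgood y z
  have hIlow : ∀ y z, ‖z - y‖ ≤ dist (I y) (I z) := by
    intro y z; rw [hId]; exact norm_le_rdist hgood y z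
  have hIcont : Continuous I := by
    have : LipschitzWith ((((m + 2 : ℕ) : NNReal)) + 1) I := by
      apply LipschitzWith.of_dist_le_mul
      intro y z
      rw [dist_comm y z, dist_eq_norm]
      exact hIlip y z
    exact this.continuous
  -- uniform convergence on balls
  have hunif : ∀ R : ℝ, ∀ η > 0, ∀ᶠ j in 𝒰, ∀ y : Rn (m + 2), ‖y‖ ≤ R →
      dist (φ j y) (I y) < η := by
    intro R η hη
    have hr : 0 < η / (4 * N) := by positivity
    obtain ⟨t, htK, htfin, hcov⟩ := (isCompact_closedBall (0 : Rn (m + 2)) R).finite_cover_balls hr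
    have h1 : ∀ᶠ j in 𝒰, ∀ z ∈ t, dist (φ j z) (I z) < η / 4 := by
      rw [htfin.eventually_all]
      intro z _
      exact (tendsto_iff_dist_tendsto_zero.1 (hI z)).eventually_lt_const (by positivity)
    have h2 : ∀ᶠ j in 𝒰, ε j < η / 4 :=
      h𝒰 (hε0.eventually_lt_const (by positivity))
    filter_upwards [h1, h2, h𝒰 (hin R)] with j h1 h2 h3 y hy
    have hyK : y ∈ Metric.closedBall (0 : Rn (m + 2)) R := by
      rw [Metric.mem_closedBall, dist_zero_right]; exact hy
    have hy2 := hcov hyK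
    rw [mem_iUnion₂] at hy2
    obtain ⟨z, hz, hyz⟩ := hy2
    rw [Metric.mem_ball, dist_eq_norm] at hyz
    have hzR : ‖z‖ ≤ R := by
      have := htK hz
      rwa [Metric.mem_closedBall, dist_zero_right] at this
    have h4 := (hφ j).isom z y (h3 z hzR) (h3 y hy)
    have h5 := (abs_le.1 h4).2
    have h6 := GG_up (m := m) ν (σ j) z y
    have h7 := h1 z hz
    have h8 := hIlip z y
    have h9 : N * ‖y - z‖ < η / 4 := by
      rw [lt_div_iff₀ (by positivity)] at hyz
      linarith
    have h10 := dist_triangle (φ j y) (φ j z) (I y)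
    have h11 := dist_triangle (φ j z) (I z) (I y)
    rw [dist_comm (φ j y) (φ j z)] at h10
    linarith
  -- supports
  obtain ⟨R0, hR0⟩ : ∃ R0 : ℝ, ∀ w : X, R0 < dist w x → f w = 0 := by
    obtain ⟨R0, hR0⟩ := (IsCompact.isBounded hc).subset_closedBall x
    refine ⟨R0, fun w hw => ?_⟩
    by_contra h
    have := hR0 (subset_tsupport f h)
    rw [Metric.mem_closedBall] at this
    linarith
  set R : ℝ := |R0| + 2 with hR
  have hI0 : I 0 = x := by
    have h1 : Tendsto (fun j => dist (φ j 0) x) 𝒰 (𝓝 (dist (I 0) x)) :=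
      (hI 0).dist tendsto_const_nhds
    have h2 : Tendsto (fun j => dist (φ j 0) x) 𝒰 (𝓝 0) :=
      squeeze_zero (fun _ => dist_nonneg) (fun j => (hφ j).base) (hε0.mono_left h𝒰)
    exact dist_eq_zero.1 (tendsto_nhds_unique h1 h2)
  have hIsupp : ∀ y : Rn (m + 2), R < ‖y‖ → f (I y) = 0 := by
    intro y hy
    apply hR0
    have := hIlow 0 y
    rw [sub_zero, hI0, dist_comm] at this
    have h2 := le_abs_self R0
    linarith
  have hφsupp : ∀ᶠ j in 𝒰, ∀ y : Rn (m + 2), (GG m ν (σ j)).dist 0 y < 1 / ε j →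
      R < ‖y‖ → f (φ j y) = 0 := by
    apply h𝒰
    filter_upwards [hε1, hin 0] with j h1 h2 y hy1 hy2
    apply hR0
    have h3 := (hφ j).isom 0 y (h2 0 (by simp)) hy1
    have h4 := (abs_le.1 h3).1
    have h5 := GG_low (m := m) ν (σ j) 0 y
    rw [sub_zero] at h5
    have h6 := (hφ j).base
    have h7 := dist_triangle (φ j 0) x (φ j y)
    have h2 := le_abs_self R0
    rw [dist_comm (φ j y) x]
    linarith
  -- cutoff
  let χ : Rn (m + 2) → ℝ := fun y => max 0 (min 1 (R + 1 - ‖y‖))
  have hχc : Continuous χ := by fun_prop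
  have hχ0 : ∀ y, 0 ≤ χ y := fun y => le_max_left _ _
  have hχ1 : ∀ y, ‖y‖ ≤ R → χ y = 1 := by
    intro y hy
    simp only [χ]
    rw [min_eq_left (by linarith), max_eq_right (by norm_num)]
  have hχs : HasCompactSupport χ := by
    apply HasCompactSupport.intro (isCompact_closedBall (0 : Rn (m + 2)) (R + 1))
    intro y hy
    rw [Metric.mem_closedBall, dist_zero_right, not_le] at hy
    simp only [χ]
    rw [max_eq_left]
    exact (min_le_right _ _).trans (by linarith)
  have hσt : Tendsto σ atTop atTop := hσ.tendsto_atTop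
  have hχlim := ((weak_wj (m := m) hat hs hχc hχs).comp hσt).mono_left h𝒰
  set Mχ : ℝ := ∫ y, χ y ∂(kap ν (m + 1) (Qf m (FD ν)))
  have hχbd : ∀ᶠ j in 𝒰, ∫ y, χ y * wj m ν (σ j) y < |Mχ| + 1 :=
    hχlim.eventually_lt_const (by linarith [le_abs_self Mχ])
  have hfIc : Continuous (fun y => f (I y)) := hf.comp hIcont
  have hfIs : HasCompactSupport (fun y => f (I y)) := by
    apply HasCompactSupport.intro (isCompact_closedBall (0 : Rn (m + 2)) R)
    intro y hy
    rw [Metric.mem_closedBall, dist_zero_right, not_le] at hy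
    exact hIsupp y hy
  have hmain := ((weak_wj (m := m) hat hs hfIc hfIs).comp hσt).mono_left h𝒰
  have hfu : UniformContinuous f := hc.uniformContinuous_of_continuous hf
  obtain ⟨Mf, hMf⟩ := hf.bounded_above_of_compact_support hc
  have hdiff : Tendsto (fun j => transported (GG m ν (σ j)) 0 (ε j) (φ j) f
      - ∫ y, f (I y) * wj m ν (σ j) y) 𝒰 (𝓝 0) := by
    rw [Metric.tendsto_nhds]
    intro η hη
    set η1 : ℝ := η / (2 * (|Mχ| + 1)) with hη1
    have hη1' : 0 < η1 := by positivity
    obtain ⟨r, hr, hfr⟩ := Metric.uniformContinuous_iff.1 hfu η1 hη1'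
    filter_upwards [hunif R r hr, hφsupp, h𝒰 (hin R), hχbd] with j h1 h2 h3 h4
    rw [Real.dist_eq, sub_zero, transported_eq]
    have hS : MeasurableSet {y | (GG m ν (σ j)).dist 0 y < 1 / ε j} :=
      (isOpen_lt (continuous_GG_dist ν (σ j)) continuous_const).measurableSet
    rw [← integral_indicator hS]
    set S := {y | (GG m ν (σ j)).dist 0 y < 1 / ε j} with hSdef
    have hwc := continuous_wj (m := m) ν (σ j)
    have hw0 := wj_nonneg (m := m) ν (σ j)
    have hiχ : Integrable (fun y => χ y * wj m ν (σ j) y) :=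
      (hχc.mul hwc).integrable_of_hasCompactSupport hχs.mul_right
    have hptS : ∀ y, |S.indicator (fun y => f (φ j y) * wj m ν (σ j) y) y|
        ≤ Mf * (χ y * wj m ν (σ j) y) := by
      intro y
      have hMf0 : 0 ≤ Mf := (norm_nonneg _).trans (hMf x)
      by_cases hyS : y ∈ S
      · rw [indicator_of_mem hyS]
        by_cases hyR : ‖y‖ ≤ R
        · rw [abs_mul, abs_of_nonneg (hw0 y), hχ1 y hyR, one_mul]
          exact mul_le_mul_of_nonneg_right (hMf _) (hw0 y)
        · rw [h2 y hyS (not_le.1 hyR)]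
          simp only [zero_mul, abs_zero]
          exact mul_nonneg hMf0 (mul_nonneg (hχ0 y) (hw0 y))
      · rw [indicator_of_notMem hyS]
        simp only [abs_zero]
        exact mul_nonneg hMf0 (mul_nonneg (hχ0 y) (hw0 y))
    have hi1 : Integrable (S.indicator (fun y => f (φ j y) * wj m ν (σ j) y)) := by
      apply (hiχ.const_mul Mf).mono'
      · apply Measurable.aestronglyMeasurable
        apply Measurable.indicator _ hS
        exact (hf.measurable.comp (hφ j).measurable).mul hwc.measurable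
      · filter_upwards with y
        exact hptS y
    have hi2 : Integrable (fun y => f (I y) * wj m ν (σ j) y) :=
      (hfIc.mul hwc).integrable_of_hasCompactSupport hfIs.mul_right
    rw [← integral_sub hi1 hi2]
    calc |∫ y, (S.indicator (fun y => f (φ j y) * wj m ν (σ j) y) y
          - f (I y) * wj m ν (σ j) y)|
        ≤ ∫ y, |S.indicator (fun y => f (φ j y) * wj m ν (σ j) y) y
          - f (I y) * wj m ν (σ j) y| := abs_integral_le_integral_abs
      _ ≤ ∫ y, η1 * (χ y * wj m ν (σ j) y) := by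
          apply integral_mono_of_nonneg
          · exact Eventually.of_forall fun _ => abs_nonneg _
          · exact hiχ.const_mul _
          · filter_upwards with y
            by_cases hyR : ‖y‖ ≤ R
            · have hyS : y ∈ S := h3 y hyR
              rw [indicator_of_mem hyS, hχ1 y hyR, one_mul, ← sub_mul, abs_mul,
                abs_of_nonneg (hw0 y)]
              apply mul_le_mul_of_nonneg_right _ (hw0 y)
              have := hfr (h1 y hyR)
              rw [Real.dist_eq] at this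
              exact this.le
            · rw [hIsupp y (not_le.1 hyR)]
              have : S.indicator (fun y => f (φ j y) * wj m ν (σ j) y) y = 0 := by
                by_cases hyS : y ∈ S
                · rw [indicator_of_mem hyS, h2 y hyS (not_le.1 hyR), zero_mul]
                · exact indicator_of_notMem hyS _
              rw [this]
              simp only [zero_mul, sub_self, abs_zero]
              exact mul_nonneg hη1'.le (mul_nonneg (hχ0 y) (hw0 y))
      _ = η1 * ∫ y, χ y * wj m ν (σ j) y := integral_const_mul _ _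
      _ ≤ η1 * (|Mχ| + 1) := mul_le_mul_of_nonneg_left h4.le hη1'.le
      _ < η := by
          rw [hη1]
          have : 0 < |Mχ| + 1 := by positivity
          field_simp
          linarith
  have := hdiff.add hmain
  simp only [Function.comp, sub_add_cancel, zero_add] at this
  exact this

end

/-- The disproof. -/
theorem main : ∀ n : ℕ, 2 ≤ n → ∃ v : ℝ, 0 < v ∧
    ∃ (G : ℕ → RMetric n) (p : ℕ → Rn n) (X : Type) (_ : MetricSpace X) (_ : MeasurableSpace X)
      (_ : BorelSpace X) (x : X),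
      ProperSpace X ∧ (∀ j, (G j).Complete) ∧ (∀ j, (G j).RicciGE 0) ∧
      (∀ j, ENNReal.ofReal v ≤ (G j).vol {y | (G j).dist (p j) y < 1}) ∧
      (∃ (ε : ℕ → ℝ) (φ : ℕ → Rn n → X) (μ : Measure X), GHConverges G p x ε φ ∧
        IsFiniteMeasureOnCompacts μ ∧ ∀ f : X → ℝ, Continuous f → HasCompactSupport f →
          Tendsto (fun j => transported (G j) (p j) (ε j) (φ j) f) atTop (𝓝 (∫ x, f x ∂μ))) ∧
      ∀ σ : ℕ → ℕ, StrictMono σ → ∀ (ε : ℕ → ℝ) (φ : ℕ → Rn n → X),
        GHConverges (G ∘ σ) (p ∘ σ) x ε φ →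
        ¬ ∃ L : (X → ℝ) → ℝ, HasForm n X L ∧
          ∀ f : X → ℝ, Continuous f → HasCompactSupport f →
            Tendsto (fun j => transported (G (σ j)) (p (σ j)) (ε j) (φ j) f) atTop
              (𝓝 (L f)) := by
  intro n hn
  obtain ⟨m, rfl⟩ : ∃ m, n = m + 2 := ⟨n - 2, by omega⟩
  obtain ⟨ν, hν, hat, hνC⟩ := exists_cantor_measure
  have hs : ν (Icc 0 1)ᶜ = 0 :=
    measure_mono_null (compl_subset_compl.2 cantorSet_subset_unitInterval) hνC
  have hgood := FD_good (m := m) hat
  set N : ℝ := ((m + 2 : ℕ) : ℝ) + 1 with hN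
  have hN0 : 0 < N := by positivity
  have hvol : volume (Metric.ball (0 : Rn (m + 2)) (1 / N)) ≠ ⊤ := measure_ball_lt_top.ne
  have hvol0 : volume (Metric.ball (0 : Rn (m + 2)) (1 / N)) ≠ 0 :=
    (Metric.measure_ball_pos volume 0 (by positivity)).ne'
  obtain ⟨δ, hδ0, hδ, hcl⟩ := FS_close hat hs
  refine ⟨(volume (Metric.ball (0 : Rn (m + 2)) (1 / N))).toReal,
    ENNReal.toReal_pos hvol0 hvol, GG m ν, fun _ => 0, XSp (AF m (FD ν)) hgood,
    inferInstance, inferInstance, inferInstance, ⟨0⟩, inferInstance, GG_complete ν, ?_, ?_, ?_, ?_⟩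
  · intro j
    exact ricciGE_zero (contDiff_FS ν (by positivity)) (deriv_FS_nonneg ν (by positivity))
  · intro j
    rw [ENNReal.ofReal_toReal hvol]
    exact GG_vol ν j
  · -- Gromov-Hausdorff convergence
    set M : ℝ := ((m + 2 : ℕ) : ℝ) * N with hM
    have hM0 : 0 < M := by positivity
    have hdiff : ∀ j (y z : Rn (m + 2)),
        |rdist (gmat (AF m (FD ν))) y z - (GG m ν j).dist y z| ≤ M * δ j * ‖z - y‖ := by
      intro j y z
      have := rdist_diff (GG_good (m := m) ν j) hgood (hδ0 j) (AF_close (hδ0 j) (hcl j)) y z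
      rw [abs_sub_comm]
      refine this.trans (le_of_eq ?_)
      rw [hM]; ring
    suffices hGH : GHConverges (GG m ν) (fun _ => 0) (⟨0⟩ : XSp (AF m (FD ν)) hgood)
        (fun j => Real.sqrt (2 * M * δ j) + 1 / ((j:ℝ) + 1)) (fun _ y => ⟨y⟩) by
      have hkf : IsFiniteMeasureOnCompacts (kap ν (m + 1) (Qf m (FD ν))) :=
        kap_finite ν (m + 1) (continuous_Qf (FD_continuous hat))
      have hmk : Measurable (XSp.mk (A := AF m (FD ν)) (hA := hgood)) :=
        XSp.lipschitz_mk.continuous.measurable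
      refine ⟨_, _, (kap ν (m + 1) (Qf m (FD ν))).map (XSp.mk (A := AF m (FD ν)) (hA := hgood)),
        hGH, ?_, ?_⟩
      · constructor
        intro K hK
        rw [Measure.map_apply hmk hK.measurableSet]
        have : (XSp.mk (A := AF m (FD ν)) (hA := hgood)) ⁻¹' K = XSp.val '' K := by
          ext y; constructor
          · intro hy; exact ⟨_, hy, rfl⟩
          · rintro ⟨x, hx, rfl⟩; exact hx
        rw [this]
        exact (hK.image XSp.lipschitz_val.continuous).measure_lt_top
      · intro f hf hc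
        rw [integral_map hmk.aemeasurable hf.aestronglyMeasurable]
        exact transported_lim (m := m) hat hs strictMono_id hGH.1 hGH.2.1 hGH.2.2 atTop le_rfl
          (fun _ => tendsto_const_nhds) (fun _ _ => rfl) hf hc
    refine ⟨?_, ?_, ?_⟩
    · intro j
      have := Real.sqrt_nonneg (2 * M * δ j)
      positivity
    · have h1 : Tendsto (fun j => Real.sqrt (2 * M * δ j)) atTop (𝓝 0) := by
        have h2 : Tendsto (fun j => 2 * M * δ j) atTop (𝓝 0) := by
          simpa using hδ.const_mul (2 * M)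
        have := (Real.continuous_sqrt.tendsto 0).comp h2
        simpa [Function.comp_def] using this
      simpa using h1.add tendsto_one_div_add_atTop_nhds_zero_nat
    · intro j
      set e : ℝ := Real.sqrt (2 * M * δ j) + 1 / ((j:ℝ) + 1) with he
      have hs0 := Real.sqrt_nonneg (2 * M * δ j)
      have hj1 : (0:ℝ) < 1 / ((j:ℝ) + 1) := by positivity
      have he0 : 0 < e := by positivity
      have hsq : 2 * M * δ j ≤ e ^ 2 := by
        have h1 : Real.sqrt (2 * M * δ j) ^ 2 = 2 * M * δ j :=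
          Real.sq_sqrt (mul_nonneg (by positivity) (hδ0 j))
        rw [← h1]
        apply pow_le_pow_left₀ hs0
        linarith
      have hMd : M * δ j ≤ e ^ 2 / 2 := by linarith
      constructor
      · exact XSp.lipschitz_mk.continuous.measurable
      · change dist (XSp.mk (0 : Rn (m + 2))) (⟨0⟩ : XSp (AF m (FD ν)) hgood) ≤ e
        rw [dist_self]; exact he0.le
      · intro y z hy hz
        have h1 := GG_low (m := m) ν j 0 y
        have h2 := GG_low (m := m) ν j 0 z
        rw [sub_zero] at h1 h2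
        have h3 : ‖z - y‖ ≤ 2 / e := by
          have h4 := norm_sub_le z y
          have h5 : (2:ℝ) / e = 1 / e + 1 / e := by ring
          rw [h5]
          linarith
        have h6 := hdiff j y z
        calc |dist (XSp.mk y : XSp (AF m (FD ν)) hgood) (XSp.mk z) - (GG m ν j).dist y z|
            ≤ M * δ j * ‖z - y‖ := h6
          _ ≤ (e ^ 2 / 2) * (2 / e) :=
              mul_le_mul hMd h3 (norm_nonneg _) (by positivity)
          _ = e := by field_simp
      · intro w hw
        refine ⟨w.val, ?_, ?_⟩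
        · have h1 : rdist (gmat (AF m (FD ν))) 0 w.val < 1 / e - e := hw
          have h2 := norm_le_rdist hgood 0 w.val
          rw [sub_zero] at h2
          have h3 := hdiff j 0 w.val
          rw [sub_zero] at h3
          have h4 := (abs_le.1 h3).1
          have h5 : M * δ j * ‖w.val‖ ≤ (e ^ 2 / 2) * (1 / e) := by
            apply mul_le_mul hMd _ (norm_nonneg _) (by positivity)
            linarith
          have h6 : (e ^ 2 / 2) * (1 / e) = e / 2 := by field_simp
          rw [h6] at h5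
          linarith
        · change dist (XSp.mk w.val : XSp (AF m (FD ν)) hgood) w ≤ e
          rw [dist_self]; exact he0.le
  · rintro σ hσ ε φ ⟨hε, hε0, hφ⟩ ⟨L, hLf, hLt⟩
    have hφ' : ∀ j, IsGHApprox (GG m ν (σ j)).dist 0
        (⟨0⟩ : XSp (AF m (FD ν)) hgood) (ε j) (φ j) := hφ
    let 𝒰 : Ultrafilter ℕ := Ultrafilter.of atTop
    have h𝒰 : (𝒰 : Filter ℕ) ≤ atTop := Ultrafilter.of_le atTop
    have hd : ∀ y z, Tendsto (fun j => (GG m ν (σ j)).dist y z) atTop
        (𝓝 (rdist (gmat (AF m (FD ν))) y z)) := by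
      intro y z
      have h1 : Tendsto (fun j => (GG m ν j).dist y z) atTop
          (𝓝 (rdist (gmat (AF m (FD ν))) y z)) := by
        rw [tendsto_iff_dist_tendsto_zero]
        have h2 : Tendsto (fun j => ((m + 2 : ℕ) : ℝ) * δ j * (N * ‖z - y‖)) atTop (𝓝 0) := by
          have := (hδ.const_mul ((m + 2 : ℕ) : ℝ)).mul_const (N * ‖z - y‖)
          simpa using this
        apply squeeze_zero (fun _ => dist_nonneg) _ h2
        intro j
        exact rdist_diff (GG_good (m := m) ν j) hgood (hδ0 j) (AF_close (hδ0 j) (hcl j)) y z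
      exact h1.comp hσ.tendsto_atTop
    obtain ⟨I, hI, hId, hIs⟩ := exists_limit_iso hd (fun j => GG_low ν (σ j))
      (fun j => GG_up ν (σ j)) hε hε0 hφ' 𝒰 h𝒰
    choose Y hY using hIs
    have hYI : ∀ y, Y (I y) = y := by
      intro y
      have h1 := norm_le_rdist hgood (Y (I y)) y
      rw [← hId, hY, dist_self] at h1
      exact (sub_eq_zero.1 (norm_le_zero_iff.1 h1)).symm
    have hIL : LipschitzWith ((((m + 2 : ℕ) : NNReal)) + 1) I := by
      apply LipschitzWith.of_dist_le_mul
      intro y z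
      rw [dist_comm y z, dist_eq_norm, hId]
      exact rdist_le_norm hgood y z
    have hYL : LipschitzWith 1 Y := by
      apply LipschitzWith.of_dist_le_mul
      intro a b
      have h1 := norm_le_rdist hgood (Y b) (Y a)
      rw [← hId, hY, hY, dist_comm] at h1
      rw [dist_eq_norm]
      simpa using h1
    apply not_hasForm (X := XSp (AF m (FD ν)) hgood) hat
      isClosed_cantorSet.measurableSet volume_cantorSet hνC
      (continuous_Qf (m := m) (FD_continuous hat)) (fun y => Qf_pos y) hY hYI hIL hYL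
    obtain ⟨R, θ, ρ, Sig, S, h1, h2, h3, h4⟩ := hLf
    refine ⟨R, θ, ρ, Sig, S, h1, h2, h3, ?_⟩
    intro f hf hc
    rw [← h4 f hf hc]
    have h5 := transported_lim (m := m) hat hs hσ hε hε0 hφ' 𝒰 h𝒰 hI hId
      hf hc
    exact tendsto_nhds_unique h5 ((hLt f hf hc).mono_left h𝒰)

end Pool.Agent.H879R2.SC
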