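import Pool.Agent.H879R2.SC.Defs

set_option autoImplicit false

namespace Pool.Agent.H879R2.SC

open MeasureTheory Filter Set
open scoped Topology ENNReal NNReal

/-- Adding a first coordinate. -/
def consR (n : ℕ) : ℝ × Rn n → Rn (n + 1) := fun p => Fin.cons p.1 p.2

lemma consR_eq (n : ℕ) :
    consR n = (MeasurableEquiv.piFinSuccAbove (fun _ : Fin (n + 1) => ℝ) 0).symm := by
  ext p i
  simp [consR, MeasurableEquiv.piFinSuccAbove]

lemma consR_zero {n : ℕ} (p : ℝ × Rn n) : consR n p 0 = p.1 := rfl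
lemma consR_succ {n : ℕ} (p : ℝ × Rn n) (i : Fin n) : consR n p i.succ = p.2 i := rfl
lemma tail_consR {n : ℕ} (p : ℝ × Rn n) : (fun i : Fin n => consR n p i.succ) = p.2 := rfl

lemma continuous_consR (n : ℕ) : Continuous (consR n) := by
  apply continuous_pi
  intro i
  refine Fin.cases ?_ (fun i => ?_) i
  · exact continuous_fst
  · exact (continuous_apply i).comp continuous_snd

lemma measurePreserving_consR (n : ℕ) : MeasurePreserving (consR n) := by
  rw [consR_eq]
  exact (volume_preserving_piFinSuccAbove (fun _ : Fin (n + 1) => ℝ) 0).symm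

lemma measurableEmbedding_consR (n : ℕ) : MeasurableEmbedding (consR n) := by
  rw [consR_eq]
  exact MeasurableEquiv.measurableEmbedding _

/-- The product of `ν` in the first coordinate and Lebesgue measure in the others. -/
noncomputable def kap0 (ν : Measure ℝ) (n : ℕ) : Measure (Rn (n + 1)) :=
  (ν.prod volume).map (consR n)

lemma kap0_null {ν : Measure ℝ} [SFinite ν] {n : ℕ} {D : Set (Rn (n + 1))}
    (hD : MeasurableSet D) (h : ∀ᵐ t ∂ν, volume {y : Rn n | consR n (t, y) ∈ D} = 0) :
    kap0 ν n D = 0 := by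
  rw [kap0, Measure.map_apply (continuous_consR n).measurable hD,
    Measure.measure_prod_null ((continuous_consR n).measurable hD)]
  exact h

section
variable {X : Type} [MetricSpace X] [MeasurableSpace X] [BorelSpace X]

/-- Sets of finite `ℋⁿ` measure are null for `ν × Lebesgue^n` if `ν` has no atoms. -/
lemma kap0_preimage_null {n : ℕ} {ν : Measure ℝ} [SFinite ν]
    (hat : ∀ x, ν {x} = 0) {I : Rn (n + 1) → X} {Y : X → Rn (n + 1)}
    (hYI : ∀ y, Y (I y) = y) (hI : Continuous I) (hY : LipschitzWith 1 Y)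
    {D : Set X} (hD : MeasurableSet D) (hfin : μH[(n : ℝ)] D ≠ ∞) :
    kap0 ν n (I ⁻¹' D) = 0 := by
  apply kap0_null (hI.measurable hD)
  have : IsFiniteMeasure ((μH[(n : ℝ)] : Measure X).restrict D) :=
    ⟨by rw [Measure.restrict_apply_univ]; exact lt_top_iff_ne_top.2 hfin⟩
  have hg : Measurable (fun w : X => Y w 0) :=
    (measurable_pi_apply 0).comp hY.continuous.measurable
  have hcount := Measure.countable_meas_level_set_pos
    (μ := (μH[(n : ℝ)] : Measure X).restrict D) hg
  have hnull : ν {t : ℝ | 0 < ((μH[(n : ℝ)] : Measure X).restrict D) {a : X | Y a 0 = t}} = 0 := by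
    rw [← biUnion_of_singleton {t : ℝ | 0 < ((μH[(n : ℝ)] : Measure X).restrict D)
      {a : X | Y a 0 = t}}, measure_biUnion_null_iff hcount]
    intro t _
    exact hat t
  rw [ae_iff]
  apply measure_mono_null _ hnull
  intro t ht
  rw [mem_ofPred_eq] at ht ⊢
  rw [pos_iff_ne_zero]
  intro h0
  apply ht
  have hgt : MeasurableSet {a : X | Y a 0 = t} := hg (measurableSet_singleton t)
  rw [Measure.restrict_apply hgt] at h0
  have hL : LipschitzWith 1 (fun w : X => (fun i : Fin n => Y w i.succ)) := by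
    apply LipschitzWith.of_dist_le_mul
    intro a b
    simp only [NNReal.coe_one, one_mul]
    have h1 := hY.dist_le_mul a b
    simp only [NNReal.coe_one, one_mul] at h1
    refine le_trans ?_ h1
    rw [dist_pi_le_iff dist_nonneg]
    intro i
    exact dist_le_pi_dist (Y a) (Y b) i.succ
  have h1 := hL.hausdorffMeasure_image_le (d := (n : ℝ)) (Nat.cast_nonneg n)
    ({a : X | Y a 0 = t} ∩ D)
  simp only [ENNReal.coe_one, ENNReal.one_rpow, one_mul] at h1
  have h2 : {y : Rn n | consR n (t, y) ∈ I ⁻¹' D}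
      ⊆ (fun w : X => (fun i : Fin n => Y w i.succ)) '' ({a : X | Y a 0 = t} ∩ D) := by
    intro y hy
    refine ⟨I (consR n (t, y)), ⟨?_, hy⟩, ?_⟩
    · rw [mem_ofPred_eq, hYI]; rfl
    · simp only [hYI]; rfl
  have h3 : (μH[(n : ℝ)] : Measure (Rn n)) {y : Rn n | consR n (t, y) ∈ I ⁻¹' D} = 0 :=
    le_antisymm ((measure_mono h2).trans (h1.trans (le_of_eq h0))) zero_le
  have h4 : (μH[(n : ℝ)] : Measure (Rn n)) = volume := by
    have := hausdorffMeasure_pi_real (ι := Fin n)
    rwa [Fintype.card_fin] at this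
  rw [h4] at h3
  exact h3

/-- Positive part measure. -/
noncomputable def pp (μ : Measure X) (f : X → ℝ) : Measure X :=
  μ.withDensity (fun x => ENNReal.ofReal (f x))

lemma pp_finite [ProperSpace X] {μ : Measure X} {f : X → ℝ} (hf : LocallyIntegrable f μ) :
    IsFiniteMeasureOnCompacts (pp μ f) := by
  constructor
  intro K hK
  have h1 : IntegrableOn f K μ := hf.integrableOn_isCompact hK
  rw [pp, withDensity_apply _ hK.measurableSet]
  calc ∫⁻ x in K, ENNReal.ofReal (f x) ∂μ ≤ ∫⁻ x in K, ‖f x‖ₑ ∂μ := by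
        apply lintegral_mono
        intro x
        change ENNReal.ofReal (f x) ≤ ‖f x‖ₑ
        rw [← ofReal_norm]
        exact ENNReal.ofReal_le_ofReal (le_abs_self _)
    _ < ∞ := h1.2

lemma integral_pp [ProperSpace X] {μ : Measure X} {f : X → ℝ} (hf : LocallyIntegrable f μ)
    {g : X → ℝ} (hg : Continuous g) (hc : HasCompactSupport g) :
    ∫ x, g x * f x ∂μ = ∫ x, g x ∂(pp μ f) - ∫ x, g x ∂(pp μ (-f)) := by
  have hm : AEStronglyMeasurable f μ := hf.aestronglyMeasurable
  have h1 : ∀ f : X → ℝ, LocallyIntegrable f μ →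
      ∫ x, g x ∂(pp μ f) = ∫ x, (f x ⊔ 0) * g x ∂μ := by
    intro f hf
    rw [pp, integral_withDensity_eq_integral_toReal_smul₀
      hf.aestronglyMeasurable.aemeasurable.ennreal_ofReal (by simp)]
    apply integral_congr_ae
    filter_upwards with x
    rw [ENNReal.toReal_ofReal', smul_eq_mul]
  have hint : ∀ f : X → ℝ, LocallyIntegrable f μ → Integrable (fun x => (f x ⊔ 0) * g x) μ := by
    intro f hf
    have hi : Integrable (fun x => f x * g x) μ := by
      have := hf.integrable_smul_right_of_hasCompactSupport hg hc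
      simpa using this
    apply hi.mono
    · exact (hf.aestronglyMeasurable.sup aestronglyMeasurable_const).mul
        hg.aestronglyMeasurable
    · filter_upwards with x
      rw [norm_mul, norm_mul]
      apply mul_le_mul_of_nonneg_right _ (norm_nonneg _)
      rw [Real.norm_eq_abs, Real.norm_eq_abs, abs_of_nonneg (le_max_right _ _)]
      exact max_le (le_abs_self _) (abs_nonneg _)
  rw [h1 f hf, h1 (-f) hf.neg, ← integral_sub (hint f hf) (hint (-f) hf.neg)]
  apply integral_congr_ae
  filter_upwards with x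
  rw [← sub_mul, mul_comm]
  congr 1
  simp only [Pi.neg_apply]
  rcases le_total (f x) 0 with h | h
  · rw [max_eq_right h, max_eq_left (by linarith)]; ring
  · rw [max_eq_left h, max_eq_right (by linarith)]; ring

/-- A locally integrable density with respect to `μ⌞Σ` is carried by a set which is `σ`-finite
for `μ`. -/
lemma exists_carrier [ProperSpace X] {μ : Measure X} {Sig : Set X} {f : X → ℝ}
    (hf : LocallyIntegrable f (μ.restrict Sig)) :
    ∃ D : ℕ → Set X, (∀ k, MeasurableSet (D k)) ∧ (∀ k, μ (D k) ≠ ∞) ∧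
      pp (μ.restrict Sig) f (⋃ k, D k)ᶜ = 0 := by
  have hm : AEStronglyMeasurable f (μ.restrict Sig) := hf.aestronglyMeasurable
  let f' := hm.mk f
  have hf'm : StronglyMeasurable f' := hm.stronglyMeasurable_mk
  have hff' : f =ᵐ[μ.restrict Sig] f' := hm.ae_eq_mk
  rcases isEmpty_or_nonempty X with hX | ⟨⟨x0⟩⟩
  · refine ⟨fun _ => ∅, fun _ => MeasurableSet.empty, by simp, ?_⟩
    have : (⋃ k : ℕ, (∅ : Set X))ᶜ = ∅ := by ext x; exact hX.elim x
    rw [this, measure_empty]
  let E : ℕ → Set X := fun k => Metric.closedBall x0 k ∩ {x | 1 / ((k:ℝ) + 1) ≤ |f' x|}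
  have hEm : ∀ k, MeasurableSet (E k) := fun k =>
    Metric.isClosed_closedBall.measurableSet.inter
      (measurableSet_le measurable_const hf'm.measurable.norm)
  have hEfin : ∀ k, (μ.restrict Sig) (E k) ≠ ∞ := by
    intro k
    have hk : (0:ℝ) < 1 / ((k:ℝ) + 1) := by positivity
    have h1 : IntegrableOn f' (Metric.closedBall x0 k) (μ.restrict Sig) :=
      ((hf.integrableOn_isCompact (isCompact_closedBall x0 k)).congr_fun_ae
        (ae_restrict_of_ae hff'))
    have h2 := h1.measure_norm_ge_lt_top hk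
    have h3 : E k = {x | 1 / ((k:ℝ) + 1) ≤ ‖f' x‖} ∩ Metric.closedBall x0 k := by
      rw [inter_comm]; rfl
    rw [h3, ← Measure.restrict_apply (measurableSet_le measurable_const hf'm.measurable.norm)]
    exact h2.ne
  refine ⟨fun k => toMeasurable μ (E k ∩ Sig), fun k => measurableSet_toMeasurable _ _, ?_, ?_⟩
  · intro k
    rw [measure_toMeasurable, ← Measure.restrict_apply (hEm k)]
    exact hEfin k
  · set D := ⋃ k, toMeasurable μ (E k ∩ Sig) with hD
    have hDm : MeasurableSet D := MeasurableSet.iUnion fun k => measurableSet_toMeasurable _ _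
    rw [pp, withDensity_apply _ hDm.compl, lintegral_eq_zero_iff']
    · have h0 : (μ.restrict Sig) (Dᶜ ∩ ⋃ k, E k) = 0 := by
        rw [inter_iUnion, measure_iUnion_null_iff]
        intro k
        rw [Measure.restrict_apply (hDm.compl.inter (hEm k))]
        have : Dᶜ ∩ E k ∩ Sig = ∅ := by
          rw [eq_empty_iff_forall_notMem]
          rintro x ⟨⟨h1, h2⟩, h3⟩
          exact h1 (mem_iUnion.2 ⟨k, subset_toMeasurable _ _ ⟨h2, h3⟩⟩)
        rw [this, measure_empty]
      have h1 : ∀ᵐ x ∂(μ.restrict Sig), x ∉ Dᶜ ∩ ⋃ k, E k := measure_eq_zero_iff_ae_notMem.1 h0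
      filter_upwards [ae_restrict_of_ae h1, ae_restrict_of_ae hff', ae_restrict_mem hDm.compl]
        with x hx1 hx2 hx3
      simp only [Pi.zero_apply, ENNReal.ofReal_eq_zero]
      rw [hx2]
      by_contra hpos
      rw [not_le] at hpos
      apply hx1
      refine ⟨hx3, mem_iUnion.2 ?_⟩
      obtain ⟨N, hN⟩ := exists_nat_gt (max (1 / |f' x|) (dist x x0))
      refine ⟨N, ?_, ?_⟩
      · rw [Metric.mem_closedBall]
        exact (lt_of_le_of_lt (le_max_right _ _) hN).le
      · rw [mem_ofPred_eq]
        have hpos' : 0 < |f' x| := abs_pos.2 hpos.ne'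
        have h5 : 1 / |f' x| < N := lt_of_le_of_lt (le_max_left _ _) hN
        rw [div_lt_iff₀ hpos'] at h5
        rw [div_le_iff₀ (by positivity)]
        nlinarith
    · exact (hm.aemeasurable.restrict).ennreal_ofReal

end

end Pool.Agent.H879R2.SC
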