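import Pool.Agent.H879R2.SC.Meas

set_option autoImplicit false

namespace Pool.Agent.H879R2.SC

open MeasureTheory Filter Set
open scoped Topology ENNReal NNReal

/-- The limit measure on coordinate space. -/
noncomputable def kap (ν : Measure ℝ) (n : ℕ) (q : Rn (n + 1) → ℝ) : Measure (Rn (n + 1)) :=
  (kap0 ν n).withDensity (fun y => ENNReal.ofReal (q y))

lemma kap0_finite (ν : Measure ℝ) [IsProbabilityMeasure ν] (n : ℕ) :
    IsFiniteMeasureOnCompacts (kap0 ν n) := by
  constructor
  intro K hK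
  have hKm : MeasurableSet K := hK.measurableSet
  rw [kap0, Measure.map_apply (continuous_consR n).measurable hKm]
  have htail : Continuous (fun y : Rn (n + 1) => (fun i : Fin n => y i.succ)) := by fun_prop
  have hK' := hK.image htail
  calc (ν.prod volume) (consR n ⁻¹' K)
      ≤ (ν.prod volume) (univ ×ˢ ((fun y : Rn (n + 1) => (fun i : Fin n => y i.succ)) '' K)) := by
        apply measure_mono
        intro p hp
        exact ⟨mem_univ _, consR n p, hp, rfl⟩
    _ = ν univ * volume ((fun y : Rn (n + 1) => (fun i : Fin n => y i.succ)) '' K) :=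
        Measure.prod_prod _ _
    _ < ∞ := by
        rw [measure_univ, one_mul]
        exact hK'.measure_lt_top

lemma kap_finite (ν : Measure ℝ) [IsProbabilityMeasure ν] (n : ℕ) {q : Rn (n + 1) → ℝ}
    (hq : Continuous q) : IsFiniteMeasureOnCompacts (kap ν n q) := by
  have := kap0_finite ν n
  have hl : LocallyIntegrable q (kap0 ν n) := hq.locallyIntegrable
  exact pp_finite hl

theorem not_hasForm {X : Type} [MetricSpace X] [ProperSpace X] [MeasurableSpace X] [BorelSpace X]
    {m : ℕ} {ν : Measure ℝ} [IsProbabilityMeasure ν] (hat : ∀ x, ν {x} = 0)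
    {C : Set ℝ} (hCm : MeasurableSet C) (hC0 : volume C = 0) (hνC : ν Cᶜ = 0)
    {q : Rn (m + 2) → ℝ} (hq : Continuous q) (hq0 : ∀ y, 0 < q y)
    {I : Rn (m + 2) → X} {Y : X → Rn (m + 2)} (hIY : ∀ x, I (Y x) = x) (hYI : ∀ y, Y (I y) = y)
    {K : ℝ≥0} (hI : LipschitzWith K I) (hY : LipschitzWith 1 Y) :
    ¬ HasForm (m + 2) X (fun f => ∫ y, f (I y) ∂(kap ν (m + 1) q)) := by
  rintro ⟨R, θ, ρ, Sig, S, hR, hθ, hρ, hL⟩
  have hkfin : IsFiniteMeasureOnCompacts (kap ν (m + 1) q) := kap_finite ν (m + 1) hq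
  set κ := kap ν (m + 1) q with hκ
  have hcastA : ((m + 2 : ℕ) : ℝ) - 1 = ((m + 1 : ℕ) : ℝ) := by push_cast; ring
  have hcastB : ((m + 2 : ℕ) : ℝ) - 2 = ((m : ℕ) : ℝ) := by push_cast; ring
  rw [hcastA] at hθ
  rw [hcastB] at hρ
  simp only [hcastA, hcastB] at hL
  have hIm : Measurable I := hI.continuous.measurable
  have hYm : Measurable Y := hY.continuous.measurable
  let κ' : Measure X := κ.map I
  have hκ'fin : IsFiniteMeasureOnCompacts κ' := by
    constructor
    intro K hK
    rw [Measure.map_apply hIm hK.measurableSet]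
    have : I ⁻¹' K = Y '' K := by
      ext y; constructor
      · intro hy; exact ⟨I y, hy, hYI y⟩
      · rintro ⟨x, hx, rfl⟩; rw [mem_preimage, hIY]; exact hx
    rw [this]
    exact (hK.image hY.continuous).measure_lt_top
  set m1 := (μH[((m + 1 : ℕ) : ℝ)] : Measure X).restrict Sig
  set m2 := (μH[((m : ℕ) : ℝ)] : Measure X).restrict S
  set m0 := (μH[((m + 2 : ℕ) : ℝ)] : Measure X)
  have f0 := pp_finite hR
  have f0' := pp_finite hR.neg
  have f1 := pp_finite hθ
  have f1' := pp_finite hθ.neg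
  have f2 := pp_finite hρ
  have f2' := pp_finite hρ.neg
  have hsum : ∀ μ ν : Measure X, IsFiniteMeasureOnCompacts μ → IsFiniteMeasureOnCompacts ν →
      IsFiniteMeasureOnCompacts (μ + ν) := by
    intro μ ν h1 h2
    constructor
    intro K hK
    rw [Measure.add_apply]
    exact ENNReal.add_lt_top.2 ⟨hK.measure_lt_top, hK.measure_lt_top⟩
  let M1 : Measure X := κ' + (pp m0 (-R) + (pp m1 (-θ) + pp m2 (-ρ)))
  let M2 : Measure X := pp m0 R + (pp m1 θ + pp m2 ρ)
  have hM1 : IsFiniteMeasureOnCompacts M1 :=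
    hsum _ _ hκ'fin (hsum _ _ f0' (hsum _ _ f1' f2'))
  have hM2 : IsFiniteMeasureOnCompacts M2 := hsum _ _ f0 (hsum _ _ f1 f2)
  have hEq : M1 = M2 := by
    apply Measure.ext_of_integral_eq_on_compactlySupported
    intro g
    have hg : Continuous g := g.continuous
    have hc : HasCompactSupport g := g.hasCompactSupport
    have hi : ∀ μ : Measure X, IsFiniteMeasureOnCompacts μ → Integrable g μ :=
      fun μ hμ => hg.integrable_of_hasCompactSupport hc
    have h := hL g hg hc
    have e0 := integral_pp hR hg hc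
    have e1 := integral_pp hθ hg hc
    have e2 := integral_pp hρ hg hc
    rw [e0, e1, e2] at h
    have e3 : ∫ x, g x ∂κ' = ∫ y, g (I y) ∂κ :=
      integral_map hIm.aemeasurable hg.aestronglyMeasurable
    rw [integral_add_measure (hi _ hκ'fin) (hi _ (hsum _ _ f0' (hsum _ _ f1' f2'))),
      integral_add_measure (hi _ f0') (hi _ (hsum _ _ f1' f2')),
      integral_add_measure (hi _ f1') (hi _ f2'),
      integral_add_measure (hi _ f0) (hi _ (hsum _ _ f1 f2)),
      integral_add_measure (hi _ f1) (hi _ f2), e3]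
    linarith
  obtain ⟨D1, hD1m, hD1f, hD1⟩ := exists_carrier hθ
  obtain ⟨D2, hD2m, hD2f, hD2⟩ := exists_carrier hρ
  set E1 := ⋃ k, D1 k
  set E2 := ⋃ k, D2 k
  have hE1m : MeasurableSet E1 := MeasurableSet.iUnion hD1m
  have hE2m : MeasurableSet E2 := MeasurableSet.iUnion hD2m
  let A : Set (Rn (m + 2)) := {y | y 0 ∈ C}
  have hAm : MeasurableSet A := (measurable_pi_apply 0) hCm
  let B : Set X := (Y ⁻¹' A) \ (E1 ∪ E2)
  have hBm : MeasurableSet B := (hYm hAm).diff (hE1m.union hE2m)
  -- the right side vanishes on B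
  have hB0 : pp m0 R B = 0 := by
    have h1 : m0 (Y ⁻¹' A) = 0 := by
      have h2 : Y ⁻¹' A = I '' A := by
        ext x; constructor
        · intro hx; exact ⟨Y x, hx, hIY x⟩
        · rintro ⟨y, hy, rfl⟩; rw [mem_preimage, hYI]; exact hy
      rw [h2]
      have h3 := hI.hausdorffMeasure_image_le (d := ((m + 2 : ℕ) : ℝ)) (Nat.cast_nonneg _) A
      have h4 : (μH[((m + 2 : ℕ) : ℝ)] : Measure (Rn (m + 2))) = volume := by
        have := hausdorffMeasure_pi_real (ι := Fin (m + 2))
        rwa [Fintype.card_fin] at this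
      rw [h4] at h3
      have h5 : volume A = 0 := by
        have := (Measure.quasiMeasurePreserving_eval
          (fun _ : Fin (m + 2) => (volume : Measure ℝ)) 0).preimage_null hC0
        exact this
      rw [h5, mul_zero] at h3
      exact le_antisymm h3 zero_le
    have h2 : pp m0 R (Y ⁻¹' A) = 0 := (withDensity_absolutelyContinuous _ _) h1
    exact measure_mono_null diff_subset h2
  have hB1 : pp m1 θ B = 0 := by
    apply measure_mono_null _ hD1
    intro x hx h
    exact hx.2 (Or.inl h)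
  have hB2 : pp m2 ρ B = 0 := by
    apply measure_mono_null _ hD2
    intro x hx h
    exact hx.2 (Or.inr h)
  have hM2B : M2 B = 0 := by
    simp only [M2, Measure.add_apply, hB0, hB1, hB2, add_zero]
  have hκB : κ' B = 0 := by
    have h1 : κ' B ≤ M1 B := by
      simp only [M1, Measure.add_apply]
      exact le_self_add
    rw [hEq, hM2B] at h1
    exact le_antisymm h1 zero_le
  -- the left side does not
  have hkE1 : kap0 ν (m + 1) (I ⁻¹' E1) = 0 := by
    rw [preimage_iUnion, measure_iUnion_null_iff]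
    intro k
    exact kap0_preimage_null hat hYI hI.continuous hY (hD1m k) (hD1f k)
  have hkE2 : kap0 ν (m + 1) (I ⁻¹' E2) = 0 := by
    rw [preimage_iUnion, measure_iUnion_null_iff]
    intro k
    apply kap0_preimage_null hat hYI hI.continuous hY (hD2m k)
    have hlt : ((m : ℕ) : ℝ) < ((m + 1 : ℕ) : ℝ) := by push_cast; linarith
    rcases Measure.hausdorffMeasure_zero_or_top hlt (D2 k) with h | h
    · rw [h]; exact ENNReal.zero_ne_top
    · exact absurd h (hD2f k)
  have hcompl : kap0 ν (m + 1) Aᶜ = 0 := by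
    apply kap0_null hAm.compl
    have : ∀ᵐ t ∂ν, t ∉ Cᶜ := measure_eq_zero_iff_ae_notMem.1 hνC
    filter_upwards [this] with t ht
    have : {y : Rn (m + 1) | consR (m + 1) (t, y) ∈ Aᶜ} = ∅ := by
      rw [eq_empty_iff_forall_notMem]
      intro y hy
      apply hy
      change t ∈ C
      rwa [notMem_compl_iff] at ht
    rw [this, measure_empty]
  have hIB : I ⁻¹' B = A \ (I ⁻¹' E1 ∪ I ⁻¹' E2) := by
    ext y
    simp only [B, mem_preimage, mem_diff, hYI, mem_union]
  have hB' : kap0 ν (m + 1) (I ⁻¹' B) ≠ 0 := by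
    intro h0
    have hall : kap0 ν (m + 1) univ = 0 := by
      have hsub : (univ : Set (Rn (m + 2))) ⊆ I ⁻¹' B ∪ (Aᶜ ∪ (I ⁻¹' E1 ∪ I ⁻¹' E2)) := by
        intro y _
        rw [hIB]
        by_cases h1 : y ∈ A
        · by_cases h2 : y ∈ I ⁻¹' E1 ∪ I ⁻¹' E2
          · exact Or.inr (Or.inr h2)
          · exact Or.inl ⟨h1, h2⟩
        · exact Or.inr (Or.inl h1)
      apply measure_mono_null hsub
      exact measure_union_null h0 (measure_union_null hcompl (measure_union_null hkE1 hkE2))
    rw [kap0, Measure.map_apply (continuous_consR _).measurable MeasurableSet.univ,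
      preimage_univ, ← univ_prod_univ, Measure.prod_prod, measure_univ, one_mul] at hall
    exact (isOpen_univ.measure_pos volume univ_nonempty).ne' hall
  have h1 : κ (I ⁻¹' B) = 0 := by
    rw [← Measure.map_apply hIm hBm]; exact hκB
  apply hB'
  rw [hκ, kap, withDensity_apply _ (hIm hBm), lintegral_eq_zero_iff
    (hq.measurable.ennreal_ofReal)] at h1
  have h2 : ∀ᵐ y ∂((kap0 ν (m + 1)).restrict (I ⁻¹' B)), False := by
    filter_upwards [h1] with y hy
    simp only [Pi.zero_apply, ENNReal.ofReal_eq_zero] at hy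
    exact absurd hy (not_le.2 (hq0 y))
  rw [ae_iff] at h2
  simpa using h2

end Pool.Agent.H879R2.SC
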