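import Mathlib

set_option autoImplicit false

namespace Pool.Agent.H879R2.SC

open MeasureTheory Filter Set
open scoped Topology ContDiff

/-- Smooth step. -/
noncomputable def stp (c s : ℝ) : ℝ := Real.smoothTransition (c * s)

lemma contDiff_stp (c : ℝ) : ContDiff ℝ ∞ (stp c) :=
  (Real.smoothTransition.contDiff (n := ⊤)).comp (contDiff_const.mul contDiff_id)

lemma stp_nonneg (c s : ℝ) : 0 ≤ stp c s := Real.smoothTransition.nonneg _
lemma stp_le_one (c s : ℝ) : stp c s ≤ 1 := Real.smoothTransition.le_one _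

lemma stp_zero {c s : ℝ} (hc : 0 < c) (hs : s ≤ 0) : stp c s = 0 :=
  Real.smoothTransition.zero_of_nonpos (mul_nonpos_of_nonneg_of_nonpos hc.le hs)

lemma stp_one {c s : ℝ} (hc : 0 < c) (hs : 1 / c ≤ s) : stp c s = 1 := by
  apply Real.smoothTransition.one_of_one_le
  rw [div_le_iff₀' hc] at hs
  exact hs

lemma stp_mono {c : ℝ} (hc : 0 < c) : Monotone (stp c) := fun _ _ h =>
  Real.smoothTransition.monotone (mul_le_mul_of_nonneg_left h hc.le)

lemma hasDerivAt_stp (c s : ℝ) : HasDerivAt (stp c) (deriv (stp c) s) s :=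
  ((contDiff_stp c).differentiable (by simp)).differentiableAt.hasDerivAt

lemma contDiff_dstp (c : ℝ) : ContDiff ℝ ∞ (deriv (stp c)) :=
  ((contDiff_infty_iff_deriv (𝕜 := ℝ)).1 (contDiff_stp c)).2

lemma dstp_nonneg {c : ℝ} (hc : 0 < c) (s : ℝ) : 0 ≤ deriv (stp c) s :=
  (stp_mono hc).deriv_nonneg

lemma dstp_zero_left {c s : ℝ} (hc : 0 < c) (hs : s < 0) : deriv (stp c) s = 0 := by
  have : stp c =ᶠ[𝓝 s] fun _ => (0:ℝ) := by
    filter_upwards [Iio_mem_nhds hs] with t ht
    exact stp_zero hc (le_of_lt ht)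
  rw [this.deriv_eq]; simp

lemma dstp_zero_right {c s : ℝ} (hc : 0 < c) (hs : 1 / c < s) : deriv (stp c) s = 0 := by
  have : stp c =ᶠ[𝓝 s] fun _ => (1:ℝ) := by
    filter_upwards [Ioi_mem_nhds hs] with t ht
    exact stp_one hc (le_of_lt ht)
  rw [this.deriv_eq]; simp

lemma hasCompactSupport_dstp {c : ℝ} (hc : 0 < c) : HasCompactSupport (deriv (stp c)) := by
  apply HasCompactSupport.intro (K := Icc 0 (1 / c)) isCompact_Icc
  intro s hs
  rw [mem_Icc, not_and_or, not_le, not_le] at hs
  rcases hs with hs | hs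
  · exact dstp_zero_left hc hs
  · exact dstp_zero_right hc hs

lemma integrable_dstp {c : ℝ} (hc : 0 < c) : Integrable (deriv (stp c)) :=
  (contDiff_dstp c).continuous.integrable_of_hasCompactSupport (hasCompactSupport_dstp hc)

lemma integral_dstp {c : ℝ} (hc : 0 < c) : ∫ s, deriv (stp c) s = 1 := by
  have h1c : 0 < 1 / c := by positivity
  have h1 : ∫ s, deriv (stp c) s = ∫ s in (-1:ℝ)..(1 / c + 1), deriv (stp c) s := by
    rw [intervalIntegral.integral_of_le (by linarith)]
    symm
    apply setIntegral_eq_integral_of_forall_compl_eq_zero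
    intro s hs
    rw [mem_Ioc, not_and_or, not_lt, not_le] at hs
    rcases hs with hs | hs
    · exact dstp_zero_left hc (by linarith)
    · exact dstp_zero_right hc (by linarith)
  rw [h1, intervalIntegral.integral_deriv_eq_sub]
  · rw [stp_one hc (by linarith), stp_zero hc (by norm_num)]; ring
  · intro s _; exact (hasDerivAt_stp c s).differentiableAt
  · exact (contDiff_dstp c).continuous.intervalIntegrable _ _

lemma exists_bound_dstp {c : ℝ} (hc : 0 < c) : ∃ C, ∀ s, |deriv (stp c) s| ≤ C := by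
  obtain ⟨C, hC⟩ := (contDiff_dstp c).continuous.bounded_above_of_compact_support
    (hasCompactSupport_dstp hc)
  exact ⟨C, hC⟩

section
variable (ν : Measure ℝ) [IsProbabilityMeasure ν]

/-- Smoothed distribution function. -/
noncomputable def FS (c x : ℝ) : ℝ := ∫ t, stp c (x - t) ∂ν

lemma integrable_stp (c x : ℝ) : Integrable (fun t => stp c (x - t)) ν := by
  apply Integrable.of_bound (C := 1)
  · exact ((contDiff_stp c).continuous.comp (by fun_prop)).aestronglyMeasurable
  · filter_upwards with t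
    rw [Real.norm_eq_abs, abs_of_nonneg (stp_nonneg _ _)]
    exact stp_le_one _ _

lemma FS_nonneg (c x : ℝ) : 0 ≤ FS ν c x := integral_nonneg fun _ => stp_nonneg _ _

lemma FS_le_one (c x : ℝ) : FS ν c x ≤ 1 := by
  calc FS ν c x ≤ ∫ _t, (1:ℝ) ∂ν :=
        integral_mono (integrable_stp ν c x) (integrable_const _) fun _ => stp_le_one _ _
    _ = 1 := by simp

lemma hasDerivAt_FS {c : ℝ} (hc : 0 < c) (x : ℝ) :
    HasDerivAt (FS ν c) (∫ t, deriv (stp c) (x - t) ∂ν) x := by
  obtain ⟨C, hC⟩ := exists_bound_dstp hc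
  have := hasDerivAt_integral_of_dominated_loc_of_deriv_le (μ := ν) (s := univ) (x₀ := x)
    (F := fun x t => stp c (x - t)) (F' := fun x t => deriv (stp c) (x - t)) (bound := fun _ => C)
    univ_mem ?_ (integrable_stp ν c x) ?_ ?_ (integrable_const _) ?_
  · exact this.2
  · filter_upwards with y
    exact (integrable_stp ν c y).aestronglyMeasurable
  · exact ((contDiff_dstp c).continuous.comp (by fun_prop)).aestronglyMeasurable
  · filter_upwards with t y _
    exact hC _
  · filter_upwards with t y _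
    have h1 := hasDerivAt_stp c (y - t)
    have h2 : HasDerivAt (fun y => y - t) 1 y := (hasDerivAt_id y).sub_const t
    have h3 := h1.comp y h2
    rw [mul_one] at h3
    exact h3

lemma deriv_FS {c : ℝ} (hc : 0 < c) : deriv (FS ν c) = fun x => ∫ t, deriv (stp c) (x - t) ∂ν := by
  ext x; exact (hasDerivAt_FS ν hc x).deriv

lemma contDiff_FS {c : ℝ} (hc : 0 < c) : ContDiff ℝ ∞ (FS ν c) := by
  rw [contDiff_infty_iff_deriv]
  refine ⟨fun x => (hasDerivAt_FS ν hc x).differentiableAt, ?_⟩
  rw [deriv_FS ν hc]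
  have h1 : LocallyIntegrable (fun _ : ℝ => (1:ℝ)) ν := (integrable_const _).locallyIntegrable
  have h2 := (hasCompactSupport_dstp hc).contDiff_convolution_right (n := ⊤)
    (ContinuousLinearMap.lsmul ℝ ℝ) h1 (contDiff_dstp c)
  have h3 : (fun x => ∫ t, deriv (stp c) (x - t) ∂ν)
      = convolution (fun _ : ℝ => (1:ℝ)) (deriv (stp c)) (ContinuousLinearMap.lsmul ℝ ℝ) ν := by
    ext x
    simp [convolution]
  rw [h3]
  exact h2

lemma deriv_FS_nonneg {c : ℝ} (hc : 0 < c) (x : ℝ) : 0 ≤ deriv (FS ν c) x := by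
  rw [deriv_FS ν hc]
  exact integral_nonneg fun _ => dstp_nonneg hc _

/-- Distribution function. -/
noncomputable def FD (x : ℝ) : ℝ := ν.real (Iic x)

lemma FS_le_FD {c : ℝ} (hc : 0 < c) (x : ℝ) : FS ν c x ≤ FD ν x := by
  have : FD ν x = ∫ t, (Iic x).indicator (fun _ => (1:ℝ)) t ∂ν := by
    rw [integral_indicator measurableSet_Iic]; simp [FD]
  rw [this]
  apply integral_mono (integrable_stp ν c x)
  · exact (integrable_const _).indicator measurableSet_Iic
  · intro t
    by_cases ht : t ≤ x
    · simp only [indicator, mem_Iic, ht, if_true]; exact stp_le_one _ _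
    · simp only [indicator, mem_Iic, ht, if_false]
      rw [stp_zero hc (by linarith [not_le.1 ht])]

lemma FD_le_FS {c : ℝ} (hc : 0 < c) (x : ℝ) : FD ν (x - 1 / c) ≤ FS ν c x := by
  have : FD ν (x - 1 / c) = ∫ t, (Iic (x - 1 / c)).indicator (fun _ => (1:ℝ)) t ∂ν := by
    rw [integral_indicator measurableSet_Iic]; simp [FD]
  rw [this]
  apply integral_mono _ (integrable_stp ν c x)
  · intro t
    by_cases ht : t ≤ x - 1 / c
    · simp only [indicator, mem_Iic, ht, if_true]
      rw [stp_one hc (by linarith)]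
    · simp only [indicator, mem_Iic, ht, if_false]; exact stp_nonneg _ _
  · exact (integrable_const _).indicator measurableSet_Iic

lemma FD_eq_cdf (x : ℝ) : FD ν x = ProbabilityTheory.cdf ν x := by
  rw [ProbabilityTheory.cdf_eq_real]; rfl

lemma FD_mono : Monotone (FD ν) := by
  intro x y h
  rw [FD_eq_cdf, FD_eq_cdf]
  exact ProbabilityTheory.monotone_cdf ν h

lemma FD_nonneg (x : ℝ) : 0 ≤ FD ν x := measureReal_nonneg
lemma FD_le_one (x : ℝ) : FD ν x ≤ 1 := measureReal_le_one

variable {ν} (hat : ∀ x, ν {x} = 0)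
include hat

lemma FD_continuous : Continuous (FD ν) := by
  have h0 : FD ν = ProbabilityTheory.cdf ν := by ext x; exact FD_eq_cdf ν x
  rw [h0, continuous_iff_continuousAt]
  intro x
  rw [(ProbabilityTheory.monotone_cdf ν).continuousAt_iff_leftLim_eq_rightLim]
  have h1 : Function.rightLim (ProbabilityTheory.cdf ν) x = ProbabilityTheory.cdf ν x :=
    (ProbabilityTheory.cdf ν).rightLim_eq x
  have h2 := (ProbabilityTheory.cdf ν).measure_singleton x
  rw [ProbabilityTheory.measure_cdf, hat, eq_comm, ENNReal.ofReal_eq_zero] at h2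
  have h3 := (ProbabilityTheory.monotone_cdf ν).leftLim_le (le_refl x)
  rw [h1]
  linarith

lemma FD_uniform (hs : ν (Icc 0 1)ᶜ = 0) : UniformContinuous (FD ν) := by
  have h1 : UniformContinuous ((Icc (0:ℝ) 1).domRestrict (FD ν)) :=
    CompactSpace.uniformContinuous_of_continuous (FD_continuous hat).continuousOn.domRestrict
  have h2 : FD ν = (Icc (0:ℝ) 1).domRestrict (FD ν) ∘ projIcc 0 1 zero_le_one := by
    ext x
    simp only [Function.comp]
    rcases lt_trichotomy x 0 with h | h | h
    · rw [projIcc_of_le_left _ h.le]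
      apply le_antisymm (FD_mono ν h.le)
      simp only [FD]
      have : ν (Iic 0) = 0 := by
        have : Iic (0:ℝ) ⊆ (Icc 0 1)ᶜ ∪ {0} := by
          intro y hy
          rcases eq_or_lt_of_le (mem_Iic.1 hy) with h | h
          · right; exact h
          · left; simp [h]
        exact measure_mono_null this (measure_union_null hs (hat 0))
      simp only [measureReal_def, this]
      simp
    · subst h
      rw [projIcc_of_le_left _ le_rfl]
      rfl
    · rcases le_or_gt x 1 with h' | h'
      · rw [projIcc_of_mem _ ⟨h.le, h'⟩]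
        rfl
      · rw [projIcc_of_right_le _ h'.le]
        apply le_antisymm _ (FD_mono ν h'.le)
        have h1 : FD ν 1 = 1 := by
          simp only [FD, measureReal_def]
          have : ν (Iic 1) = 1 := by
            rw [prob_compl_eq_zero_iff measurableSet_Iic |>.symm]
            apply measure_mono_null _ hs
            intro y hy
            simp only [mem_compl_iff, mem_Iic, not_le, mem_Icc, not_and] at *
            intro _; exact hy
          rw [this]; simp
        change FD ν x ≤ FD ν 1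
        rw [h1]; exact FD_le_one ν x
  rw [h2]
  exact h1.comp ((LipschitzWith.projIcc zero_le_one).uniformContinuous)

lemma FS_close (hs : ν (Icc 0 1)ᶜ = 0) : ∃ δ : ℕ → ℝ, (∀ j, 0 ≤ δ j) ∧ Tendsto δ atTop (𝓝 0) ∧
    ∀ (j : ℕ) (x : ℝ), |FS ν ((j:ℝ) + 1) x - FD ν x| ≤ δ j := by
  have hu := FD_uniform hat hs
  let δ : ℕ → ℝ := fun j => ⨆ x, |FS ν ((j:ℝ) + 1) x - FD ν x|
  have hb : ∀ j : ℕ, BddAbove (range fun x => |FS ν ((j:ℝ) + 1) x - FD ν x|) := by
    intro j
    refine ⟨1, ?_⟩
    rintro _ ⟨x, rfl⟩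
    have h1 := FS_nonneg ν ((j:ℝ)+1) x
    have h2 := FS_le_one ν ((j:ℝ)+1) x
    have h3 := FD_nonneg ν x
    have h4 := FD_le_one ν x
    simp only
    rw [abs_le]; constructor <;> linarith
  refine ⟨δ, fun j => Real.iSup_nonneg fun _ => abs_nonneg _, ?_, fun j x => le_ciSup (hb j) x⟩
  rw [Metric.tendsto_atTop]
  intro ε hε
  obtain ⟨r, hr, h⟩ := Metric.uniformContinuous_iff.1 hu (ε / 2) (half_pos hε)
  obtain ⟨N, hN⟩ := exists_nat_gt (1 / r)
  refine ⟨N, fun j hj => ?_⟩
  have hj' : (0:ℝ) < (j:ℝ) + 1 := by positivity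
  have hjr : 1 / ((j:ℝ) + 1) < r := by
    rw [div_lt_iff₀ hj']
    rw [div_lt_iff₀ hr] at hN
    have : (N:ℝ) ≤ j := by exact_mod_cast hj
    nlinarith
  rw [Real.dist_eq, sub_zero, abs_of_nonneg (Real.iSup_nonneg fun _ => abs_nonneg _)]
  apply lt_of_le_of_lt (b := ε / 2) _ (by linarith)
  apply ciSup_le
  intro x
  have h1 := FS_le_FD ν hj' x
  have h2 := FD_le_FS ν hj' x
  have h3 := h (a := x - 1 / ((j:ℝ) + 1)) (b := x) (by
    rw [Real.dist_eq]
    rw [show x - 1 / ((j:ℝ) + 1) - x = -(1 / ((j:ℝ) + 1)) by ring, abs_neg, abs_of_pos (by positivity)]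
    exact hjr)
  rw [Real.dist_eq, abs_lt] at h3
  rw [abs_le]
  constructor <;> linarith [h3.1, h3.2]

end

section
variable (ν : Measure ℝ) [IsProbabilityMeasure ν]

/-- Weak convergence of the derivatives of the smoothed distribution functions. -/
lemma weak_FS {Ψ : ℝ → ℝ} (hΨ : Continuous Ψ) (hc : HasCompactSupport Ψ) :
    Tendsto (fun j : ℕ => ∫ s, Ψ s * deriv (FS ν ((j:ℝ) + 1)) s) atTop (𝓝 (∫ s, Ψ s ∂ν)) := by
  have hu : UniformContinuous Ψ := hc.uniformContinuous_of_continuous hΨ
  have hiΨ : Integrable Ψ := hΨ.integrable_of_hasCompactSupport hc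
  obtain ⟨M, hM⟩ := hΨ.bounded_above_of_compact_support hc
  have hswap : ∀ j : ℕ, ∫ s, Ψ s * deriv (FS ν ((j:ℝ) + 1)) s
      = ∫ t, (∫ u, Ψ (u + t) * deriv (stp ((j:ℝ) + 1)) u) ∂ν := by
    intro j
    have hj : (0:ℝ) < (j:ℝ) + 1 := by positivity
    obtain ⟨C, hC⟩ := exists_bound_dstp hj
    rw [deriv_FS ν hj]
    simp_rw [← integral_const_mul]
    rw [integral_integral_swap]
    · congr 1
      ext t
      rw [← integral_add_right_eq_self (fun s => Ψ s * deriv (stp ((j:ℝ) + 1)) (s - t)) t]
      simp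
    · have h1 : Integrable (fun p : ℝ × ℝ => C * Ψ p.1) (volume.prod ν) := by
        have : Integrable (fun p : ℝ × ℝ => Ψ p.1) (volume.prod ν) := by
          simpa using hiΨ.mul_prod (integrable_const (1:ℝ) (μ := ν))
        exact this.const_mul C
      apply h1.mono
      · apply Continuous.aestronglyMeasurable
        exact (hΨ.comp continuous_fst).mul ((contDiff_dstp _).continuous.comp (by fun_prop))
      · filter_upwards with p
        simp only [Function.uncurry, norm_mul, Real.norm_eq_abs]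
        rw [mul_comm]
        have h2 : |deriv (stp ((j:ℝ) + 1)) (p.1 - p.2)| ≤ |C| := (hC _).trans (le_abs_self _)
        exact mul_le_mul_of_nonneg_right h2 (abs_nonneg _)
  simp_rw [hswap]
  rw [Metric.tendsto_atTop]
  intro ε hε
  obtain ⟨r, hr, h⟩ := Metric.uniformContinuous_iff.1 hu (ε / 2) (half_pos hε)
  obtain ⟨N, hN⟩ := exists_nat_gt (1 / r)
  refine ⟨N, fun j hj => ?_⟩
  have hj' : (0:ℝ) < (j:ℝ) + 1 := by positivity
  have hjr : 1 / ((j:ℝ) + 1) < r := by
    rw [div_lt_iff₀ hj']
    rw [div_lt_iff₀ hr] at hN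
    have : (N:ℝ) ≤ j := by exact_mod_cast hj
    nlinarith
  have hint : ∀ t, Integrable (fun u => Ψ (u + t) * deriv (stp ((j:ℝ) + 1)) u) := by
    intro t
    apply Continuous.integrable_of_hasCompactSupport
    · exact (hΨ.comp (by fun_prop)).mul (contDiff_dstp _).continuous
    · exact (hasCompactSupport_dstp hj').mul_left
  have hpt : ∀ t, |(∫ u, Ψ (u + t) * deriv (stp ((j:ℝ) + 1)) u) - Ψ t| ≤ ε / 2 := by
    intro t
    have e1 : Ψ t = ∫ u, Ψ t * deriv (stp ((j:ℝ) + 1)) u := by
      rw [integral_const_mul, integral_dstp hj', mul_one]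
    have e2 : (∫ u, Ψ (u + t) * deriv (stp ((j:ℝ) + 1)) u) - Ψ t
        = ∫ u, (Ψ (u + t) - Ψ t) * deriv (stp ((j:ℝ) + 1)) u := by
      conv_lhs => rw [e1]
      rw [← integral_sub (hint t) ((integrable_dstp hj').const_mul _)]
      congr 1; ext u; ring
    rw [e2]
    calc |∫ u, (Ψ (u + t) - Ψ t) * deriv (stp ((j:ℝ) + 1)) u|
        ≤ ∫ u, |(Ψ (u + t) - Ψ t) * deriv (stp ((j:ℝ) + 1)) u| := abs_integral_le_integral_abs
      _ ≤ ∫ u, (ε / 2) * deriv (stp ((j:ℝ) + 1)) u := by
          apply integral_mono_of_nonneg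
          · exact Eventually.of_forall fun _ => abs_nonneg _
          · exact (integrable_dstp hj').const_mul _
          · filter_upwards with u
            rw [abs_mul, abs_of_nonneg (dstp_nonneg hj' u)]
            by_cases hu0 : u < 0
            · rw [dstp_zero_left hj' hu0]; simp
            · by_cases hu1 : 1 / ((j:ℝ) + 1) < u
              · rw [dstp_zero_right hj' hu1]; simp
              · apply mul_le_mul_of_nonneg_right _ (dstp_nonneg hj' u)
                have := h (a := u + t) (b := t) (by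
                  rw [Real.dist_eq, add_sub_cancel_right, abs_of_nonneg (not_lt.1 hu0)]
                  exact (not_lt.1 hu1).trans_lt hjr)
                rw [Real.dist_eq] at this
                exact this.le
      _ = ε / 2 := by rw [integral_const_mul, integral_dstp hj', mul_one]
  have hI : Integrable (fun t => Ψ t) ν := by
    apply Integrable.of_bound hΨ.aestronglyMeasurable M
    filter_upwards with t; exact hM t
  have hJ : Integrable (fun t => ∫ u, Ψ (u + t) * deriv (stp ((j:ℝ) + 1)) u) ν := by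
    apply Integrable.of_bound (C := M + ε / 2)
    · apply Continuous.aestronglyMeasurable
      have : Continuous (fun t => ∫ u, Ψ (u + t) * deriv (stp ((j:ℝ) + 1)) u) := by
        apply continuous_of_dominated (bound := fun u => M * deriv (stp ((j:ℝ) + 1)) u)
        · intro t; exact (hint t).aestronglyMeasurable
        · intro t
          filter_upwards with u
          rw [norm_mul, Real.norm_of_nonneg (dstp_nonneg hj' u)]
          exact mul_le_mul_of_nonneg_right (hM _) (dstp_nonneg hj' u)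
        · exact (integrable_dstp hj').const_mul _
        · filter_upwards with u
          exact (hΨ.comp (by fun_prop)).mul continuous_const
      exact this
    · filter_upwards with t
      have h1 := hpt t
      have h2 := hM t
      rw [Real.norm_eq_abs] at *
      have := abs_sub_abs_le_abs_sub (∫ u, Ψ (u + t) * deriv (stp ((j:ℝ) + 1)) u) (Ψ t)
      linarith
  rw [Real.dist_eq, ← integral_sub hJ hI]
  calc |∫ t, ((∫ u, Ψ (u + t) * deriv (stp ((j:ℝ) + 1)) u) - Ψ t) ∂ν|
      ≤ ∫ t, |(∫ u, Ψ (u + t) * deriv (stp ((j:ℝ) + 1)) u) - Ψ t| ∂ν :=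
        abs_integral_le_integral_abs
    _ ≤ ∫ _t, ε / 2 ∂ν := integral_mono (hJ.sub hI).abs (integrable_const _) hpt
    _ < ε := by simp; linarith

end

end Pool.Agent.H879R2.SC
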