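import Pool.Agent.H879R2.SC.Curv

set_option autoImplicit false

namespace Pool.Agent.H879R2.SC

open MeasureTheory Filter Set Matrix
open scoped Topology ContDiff

/-- The second profile. -/
noncomputable def hf (s : ℝ) : ℝ := Real.arctan s / 2

lemma contDiff_hf : ContDiff ℝ ∞ hf := Real.contDiff_arctan.div_const 2

lemma deriv_hf (s : ℝ) : deriv hf s = 1 / (1 + s ^ 2) / 2 := by
  have h : HasDerivAt hf (1 / (1 + s ^ 2) / 2) s := (Real.hasDerivAt_arctan s).div_const 2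
  exact h.deriv

lemma deriv_hf_pos (s : ℝ) : 0 < deriv hf s := by rw [deriv_hf]; positivity

lemma deriv_hf_le (s : ℝ) : deriv hf s ≤ 1 := by
  rw [deriv_hf, div_div]
  apply div_le_one_of_le₀ <;> nlinarith [sq_nonneg s]

lemma abs_hf_le (s : ℝ) : |hf s| ≤ 1 := by
  unfold hf
  have h1 := Real.arctan_lt_pi_div_two s
  have h2 := Real.neg_pi_div_two_lt_arctan s
  have h3 := Real.pi_lt_four
  rw [abs_le]; constructor <;> linarith

/-- The data `(F, h, 0, …, 0)`. -/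
noncomputable def AF (m : ℕ) (F : ℝ → ℝ) : Fin (m + 2) → ℝ → ℝ :=
  Fin.cons F (Fin.cons hf (fun _ _ => 0))

variable {m : ℕ} {F : ℝ → ℝ}

@[simp] lemma AF_zero : AF m F 0 = F := rfl
@[simp] lemma AF_one : AF m F 1 = hf := rfl
@[simp] lemma AF_succ (i : Fin m) : AF m F i.succ.succ = fun _ => 0 := rfl

lemma AF_good (hF : Continuous F) (hb : ∀ s, |F s| ≤ 1) : Good (AF m F) := by
  constructor
  · intro i
    refine Fin.cases ?_ (fun i => Fin.cases ?_ (fun i => ?_) i) i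
    · exact hF
    · exact contDiff_hf.continuous
    · exact continuous_const
  · intro i
    refine Fin.cases ?_ (fun i => Fin.cases ?_ (fun i => ?_) i) i
    · exact hb
    · exact abs_hf_le
    · intro s; simp

lemma AF_contDiff (hF : ContDiff ℝ ∞ F) : ∀ i, ContDiff ℝ ∞ (AF m F i) := by
  intro i
  refine Fin.cases ?_ (fun i => Fin.cases ?_ (fun i => ?_) i) i
  · exact hF
  · exact contDiff_hf
  · exact contDiff_const

lemma AF_close {F' : ℝ → ℝ} {δ : ℝ} (hδ : 0 ≤ δ) (h : ∀ s, |F s - F' s| ≤ δ) :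
    ∀ i s, |AF m F i s - AF m F' i s| ≤ δ := by
  intro i
  refine Fin.cases ?_ (fun i => Fin.cases ?_ (fun i => ?_) i) i
  · exact h
  · intro s
    change |hf s - hf s| ≤ δ
    simpa using hδ
  · intro s
    simpa using hδ

lemma AF_W (x : Rn (m + 2)) : Wf (AF m F) x = 1 + (F (x 0) ^ 2 + hf (x 1) ^ 2) := by
  unfold Wf
  rw [Fin.sum_univ_succ, Fin.sum_univ_succ]
  have : ∀ i : Fin m, AF m F i.succ.succ (x i.succ.succ) ^ 2 = 0 := by intro i; simp
  simp only [this, Finset.sum_const_zero, add_zero]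
  rfl

lemma AF_W_le (hb : ∀ s, |F s| ≤ 1) (x : Rn (m + 2)) : Wf (AF m F) x ≤ 3 := by
  rw [AF_W]
  have h1 := hb (x 0)
  have h2 := abs_hf_le (x 1)
  have h3 : F (x 0) ^ 2 ≤ 1 := by rw [← sq_abs]; nlinarith [abs_nonneg (F (x 0))]
  have h4 : hf (x 1) ^ 2 ≤ 1 := by rw [← sq_abs]; nlinarith [abs_nonneg (hf (x 1))]
  linarith

section
variable (hF : ContDiff ℝ ∞ F)
include hF

lemma ricci_zero_zero (x : Rn (m + 2)) :
    (ofGraph (AF m F) (AF_contDiff hF)).ricci 0 0 x =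
      deriv F (x 0) * deriv hf (x 1) * (Wf (AF m F) x)⁻¹ ^ 2 * (1 + F (x 0) ^ 2) := by
  rw [ricci_eq]
  have hW := (Wf_pos (AF m F) x).ne'
  have e1 : ∑ k, deriv (AF m F k) (x k) = deriv F (x 0) + deriv hf (x 1) := by
    rw [Fin.sum_univ_succ, Fin.sum_univ_succ]
    simp
  have e2 : ∑ k, AF m F k (x k) ^ 2 * deriv (AF m F k) (x k)
      = F (x 0) ^ 2 * deriv F (x 0) + hf (x 1) ^ 2 * deriv hf (x 1) := by
    rw [Fin.sum_univ_succ, Fin.sum_univ_succ]
    simp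
  rw [e1, e2]
  simp only [if_true, AF_zero]
  have hW2 := AF_W (m := m) (F := F) x
  set W := Wf (AF m F) x
  have h5 : hf (x 1) ^ 2 = W - 1 - F (x 0) ^ 2 := by rw [hW2]; ring
  rw [h5]
  field_simp
  ring

lemma ricci_one_one (x : Rn (m + 2)) :
    (ofGraph (AF m F) (AF_contDiff hF)).ricci 1 1 x =
      deriv F (x 0) * deriv hf (x 1) * (Wf (AF m F) x)⁻¹ ^ 2 * (1 + hf (x 1) ^ 2) := by
  rw [ricci_eq]
  have hW := (Wf_pos (AF m F) x).ne'
  have e1 : ∑ k, deriv (AF m F k) (x k) = deriv F (x 0) + deriv hf (x 1) := by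
    rw [Fin.sum_univ_succ, Fin.sum_univ_succ]
    simp
  have e2 : ∑ k, AF m F k (x k) ^ 2 * deriv (AF m F k) (x k)
      = F (x 0) ^ 2 * deriv F (x 0) + hf (x 1) ^ 2 * deriv hf (x 1) := by
    rw [Fin.sum_univ_succ, Fin.sum_univ_succ]
    simp
  rw [e1, e2]
  simp only [if_true, AF_one]
  have hW2 := AF_W (m := m) (F := F) x
  set W := Wf (AF m F) x
  have h5 : F (x 0) ^ 2 = W - 1 - hf (x 1) ^ 2 := by rw [hW2]; ring
  rw [h5]
  field_simp
  ring

lemma ricci_zero_one (x : Rn (m + 2)) :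
    (ofGraph (AF m F) (AF_contDiff hF)).ricci 0 1 x =
      deriv F (x 0) * deriv hf (x 1) * (Wf (AF m F) x)⁻¹ ^ 2 * (F (x 0) * hf (x 1)) := by
  rw [ricci_eq]
  have : (0 : Fin (m + 2)) ≠ 1 := by simp
  simp only [this, if_false, AF_zero, AF_one]
  ring

lemma ricci_one_zero (x : Rn (m + 2)) :
    (ofGraph (AF m F) (AF_contDiff hF)).ricci 1 0 x =
      deriv F (x 0) * deriv hf (x 1) * (Wf (AF m F) x)⁻¹ ^ 2 * (F (x 0) * hf (x 1)) := by
  rw [ricci_eq]
  have : (1 : Fin (m + 2)) ≠ 0 := by simp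
  simp only [this, if_false, AF_zero, AF_one]
  ring

lemma ricci_succ_left (i : Fin m) (j : Fin (m + 2)) (x : Rn (m + 2)) :
    (ofGraph (AF m F) (AF_contDiff hF)).ricci i.succ.succ j x = 0 := by
  rw [ricci_eq]
  simp

lemma ricci_succ_right (i : Fin (m + 2)) (j : Fin m) (x : Rn (m + 2)) :
    (ofGraph (AF m F) (AF_contDiff hF)).ricci i j.succ.succ x = 0 := by
  rw [ricci_eq]
  by_cases h : i = j.succ.succ
  · subst h; simp
  · simp [h]

lemma sum_ricci (x : Rn (m + 2)) (c : Fin (m + 2) → Fin (m + 2) → ℝ) :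
    ∑ i, ∑ j, c i j * (ofGraph (AF m F) (AF_contDiff hF)).ricci i j x =
      deriv F (x 0) * deriv hf (x 1) * (Wf (AF m F) x)⁻¹ ^ 2 *
        (c 0 0 * (1 + F (x 0) ^ 2) + c 0 1 * (F (x 0) * hf (x 1))
          + c 1 0 * (F (x 0) * hf (x 1)) + c 1 1 * (1 + hf (x 1) ^ 2)) := by
  have h1 : ∀ i, ∑ j, c i j * (ofGraph (AF m F) (AF_contDiff hF)).ricci i j x
      = c i 0 * (ofGraph (AF m F) (AF_contDiff hF)).ricci i 0 x
        + c i 1 * (ofGraph (AF m F) (AF_contDiff hF)).ricci i 1 x := by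
    intro i
    rw [Fin.sum_univ_succ, Fin.sum_univ_succ]
    simp only [ricci_succ_right hF, mul_zero, Finset.sum_const_zero, add_zero]
    rfl
  simp_rw [h1]
  rw [Fin.sum_univ_succ, Fin.sum_univ_succ]
  simp only [ricci_succ_left hF, mul_zero, Finset.sum_const_zero, add_zero]
  have h01 : Fin.succ (0 : Fin (m + 1)) = (1 : Fin (m + 2)) := rfl
  rw [h01, ricci_zero_zero hF, ricci_zero_one hF, ricci_one_zero hF, ricci_one_one hF]
  ring

lemma ricciGE_zero (hmono : ∀ s, 0 ≤ deriv F s) :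
    (ofGraph (AF m F) (AF_contDiff hF)).RicciGE 0 := by
  intro x v
  rw [zero_mul]
  have h := sum_ricci hF x (fun i j => v i * v j)
  have h2 : ∑ i, ∑ j, (ofGraph (AF m F) (AF_contDiff hF)).ricci i j x * v i * v j
      = ∑ i, ∑ j, (v i * v j) * (ofGraph (AF m F) (AF_contDiff hF)).ricci i j x := by
    apply Finset.sum_congr rfl; intro i _
    apply Finset.sum_congr rfl; intro j _
    ring
  rw [h2, h]
  apply mul_nonneg
  · exact mul_nonneg (mul_nonneg (hmono _) (deriv_hf_pos _).le) (sq_nonneg _)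
  · have : v 0 * v 0 * (1 + F (x 0) ^ 2) + v 0 * v 1 * (F (x 0) * hf (x 1))
          + v 1 * v 0 * (F (x 0) * hf (x 1)) + v 1 * v 1 * (1 + hf (x 1) ^ 2)
          = v 0 ^ 2 + v 1 ^ 2 + (F (x 0) * v 0 + hf (x 1) * v 1) ^ 2 := by ring
    rw [this]
    positivity

lemma scal_eq (x : Rn (m + 2)) :
    (ofGraph (AF m F) (AF_contDiff hF)).scal x =
      2 * deriv F (x 0) * deriv hf (x 1) * (Wf (AF m F) x)⁻¹ ^ 2 := by
  unfold RMetric.scal
  rw [sum_ricci hF x (fun i j => ((ofGraph (AF m F) (AF_contDiff hF)).g x)⁻¹ i j)]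
  have hg : (ofGraph (AF m F) (AF_contDiff hF)).g x = gmat (AF m F) x := rfl
  rw [hg]
  simp only [inv_gmat_apply, AF_zero, AF_one]
  have h01 : (0 : Fin (m + 2)) ≠ 1 := by simp
  rw [Matrix.one_apply_eq, Matrix.one_apply_eq, Matrix.one_apply_ne h01,
    Matrix.one_apply_ne h01.symm]
  have hW := (Wf_pos (AF m F) x).ne'
  have hW2 := AF_W (m := m) (F := F) x
  set W := Wf (AF m F) x
  have h5 : hf (x 1) ^ 2 = W - 1 - F (x 0) ^ 2 := by rw [hW2]; ring
  have h6 : (1 - W⁻¹ * (F (x 0) * F (x 0))) * (1 + F (x 0) ^ 2)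
      + (0 - W⁻¹ * (F (x 0) * hf (x 1))) * (F (x 0) * hf (x 1))
      + (0 - W⁻¹ * (hf (x 1) * F (x 0))) * (F (x 0) * hf (x 1))
      + (1 - W⁻¹ * (hf (x 1) * hf (x 1))) * (1 + hf (x 1) ^ 2) = 2 := by
    have : (1 - W⁻¹ * (F (x 0) * F (x 0))) * (1 + F (x 0) ^ 2)
      + (0 - W⁻¹ * (F (x 0) * hf (x 1))) * (F (x 0) * hf (x 1))
      + (0 - W⁻¹ * (hf (x 1) * F (x 0))) * (F (x 0) * hf (x 1))
      + (1 - W⁻¹ * (hf (x 1) * hf (x 1))) * (1 + hf (x 1) ^ 2)
      = 2 + (F (x 0) ^ 2 + hf (x 1) ^ 2)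
        - W⁻¹ * ((F (x 0) ^ 2 + hf (x 1) ^ 2) * (1 + (F (x 0) ^ 2 + hf (x 1) ^ 2))) := by ring
    rw [this, ← hW2]
    field_simp
    ring
  rw [h6]
  ring

end

end Pool.Agent.H879R2.SC
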