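import Pool.Agent.H879R2.SC.Spec
import Pool.Agent.H879R2.SC.Smooth
import Pool.Agent.H879R2.SC.Meas2

set_option autoImplicit false

namespace Pool.Agent.H879R2.SC

open MeasureTheory Filter Set
open scoped Topology

section
variable (ν : Measure ℝ) [IsProbabilityMeasure ν]

/-- Partial integration over the last coordinates. -/
lemma slice_props {n : ℕ} {χ : Rn (n + 1) → ℝ} (hχ : Continuous χ) (hc : HasCompactSupport χ) :
    Continuous (fun s => ∫ y : Rn n, χ (consR n (s, y))) ∧
      HasCompactSupport (fun s => ∫ y : Rn n, χ (consR n (s, y))) := by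
  have htail : Continuous (fun y : Rn (n + 1) => (fun i : Fin n => y i.succ)) := by fun_prop
  have hK : IsCompact (tsupport χ) := hc
  have hK' := hK.image htail
  have hK0 := hK.image (continuous_apply (0 : Fin (n + 1)))
  have hz : ∀ s y, χ (consR n (s, y)) ≠ 0 → consR n (s, y) ∈ tsupport χ := by
    intro s y h; exact subset_tsupport _ h
  constructor
  · have h1 : (fun s => ∫ y : Rn n, χ (consR n (s, y))) = fun s =>
        ∫ y in ((fun y : Rn (n + 1) => (fun i : Fin n => y i.succ)) '' tsupport χ),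
          χ (consR n (s, y)) := by
      ext s
      symm
      apply setIntegral_eq_integral_of_forall_compl_eq_zero
      intro y hy
      by_contra h
      exact hy ⟨_, hz s y h, rfl⟩
    rw [h1]
    apply continuous_parametric_integral_of_continuous _ hK'
    exact hχ.comp (continuous_consR n)
  · apply HasCompactSupport.intro hK0
    intro s hs
    apply integral_eq_zero_of_ae
    filter_upwards with y
    by_contra h
    exact hs ⟨_, hz s y h, rfl⟩

lemma integrable_consR {n : ℕ} {χ : Rn (n + 1) → ℝ} (hχ : Continuous χ)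
    (hc : HasCompactSupport χ) (μ : Measure ℝ) [IsFiniteMeasureOnCompacts μ] [SFinite μ] :
    Integrable (fun p => χ (consR n p)) (μ.prod volume) := by
  have : IsFiniteMeasureOnCompacts (μ.prod (volume : Measure (Rn n))) := by
    infer_instance
  apply Continuous.integrable_of_hasCompactSupport (hχ.comp (continuous_consR n))
  have htail : Continuous (fun y : Rn (n + 1) => (fun i : Fin n => y i.succ)) := by fun_prop
  have hK : IsCompact (tsupport χ) := hc
  have hK' := hK.image htail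
  have hK0 := hK.image (continuous_apply (0 : Fin (n + 1)))
  apply HasCompactSupport.intro (hK0.prod hK')
  intro p hp
  by_contra h
  have h2 : consR n p ∈ tsupport χ := subset_tsupport _ h
  exact hp ⟨⟨_, h2, rfl⟩, ⟨_, h2, rfl⟩⟩

lemma weak_conv {n : ℕ} {χ : Rn (n + 1) → ℝ} (hχ : Continuous χ) (hc : HasCompactSupport χ) :
    Tendsto (fun j : ℕ => ∫ y, χ y * deriv (FS ν ((j:ℝ) + 1)) (y 0)) atTop
      (𝓝 (∫ y, χ y ∂(kap0 ν n))) := by
  obtain ⟨h1, h2⟩ := slice_props hχ hc
  have h3 := weak_FS ν h1 h2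
  have e1 : ∀ j : ℕ, ∫ y, χ y * deriv (FS ν ((j:ℝ) + 1)) (y 0)
      = ∫ s, (∫ y : Rn n, χ (consR n (s, y))) * deriv (FS ν ((j:ℝ) + 1)) s := by
    intro j
    have hj : (0:ℝ) < (j:ℝ) + 1 := by positivity
    have hd : Continuous (deriv (FS ν ((j:ℝ) + 1))) := by
      have := (contDiff_FS ν hj).continuous_deriv (by simp)
      exact this
    rw [← (measurePreserving_consR n).integral_comp (measurableEmbedding_consR n)]
    have hc' : HasCompactSupport (fun y : Rn (n + 1) => χ y * deriv (FS ν ((j:ℝ) + 1)) (y 0)) :=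
      hc.mul_right
    have hi : Integrable (fun p : ℝ × Rn n => χ (consR n p) * deriv (FS ν ((j:ℝ) + 1)) p.1)
        (volume.prod volume) :=
      integrable_consR (hχ.mul (hd.comp (continuous_apply 0))) hc' volume
    change ∫ p, χ (consR n p) * deriv (FS ν ((j:ℝ) + 1)) p.1 ∂(volume.prod volume) = _
    rw [integral_prod _ hi]
    congr 1
    ext s
    rw [← integral_mul_const]
  have e2 : ∫ y, χ y ∂(kap0 ν n) = ∫ s, (∫ y : Rn n, χ (consR n (s, y))) ∂ν := by
    rw [kap0, (measurableEmbedding_consR n).integral_map, integral_prod _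
      (integrable_consR hχ hc ν)]
  simp_rw [e1]
  rw [e2]
  exact h3

end

/-- The part of the scalar curvature density not depending on `F'`. -/
noncomputable def Qf (m : ℕ) (F : ℝ → ℝ) (y : Rn (m + 2)) : ℝ :=
  2 * deriv hf (y 1) * ((Wf (AF m F) y)⁻¹ ^ 2 * Real.sqrt (Wf (AF m F) y))

lemma continuous_Wf {m : ℕ} {F : ℝ → ℝ} (hF : Continuous F) : Continuous (Wf (AF m F)) := by
  have : Wf (AF m F) = fun x => 1 + (F (x 0) ^ 2 + hf (x 1) ^ 2) := by ext x; exact AF_W x
  rw [this]
  have h1 : Continuous (fun x : Rn (m + 2) => F (x 0)) := hF.comp (continuous_apply 0)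
  have h2 : Continuous (fun x : Rn (m + 2) => hf (x 1)) :=
    contDiff_hf.continuous.comp (continuous_apply 1)
  exact continuous_const.add ((h1.pow 2).add (h2.pow 2))

lemma continuous_Qf {m : ℕ} {F : ℝ → ℝ} (hF : Continuous F) : Continuous (Qf m F) := by
  unfold Qf
  have h1 := continuous_Wf (m := m) hF
  have h2 : Continuous (deriv hf) := contDiff_hf.continuous_deriv (by simp)
  exact (continuous_const.mul (h2.comp (continuous_apply 1))).mul
    (((h1.inv₀ fun x => (Wf_pos _ x).ne').pow 2).mul h1.sqrt)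

lemma Qf_pos {m : ℕ} {F : ℝ → ℝ} (y : Rn (m + 2)) : 0 < Qf m F y := by
  unfold Qf
  have h1 := Wf_pos (AF m F) y
  have h2 := deriv_hf_pos (y 1)
  positivity

lemma sqrt_term {a b : ℝ} (ha : 1 ≤ a) (hb : 1 ≤ b) :
    |(a⁻¹ ^ 2 * Real.sqrt a) - (b⁻¹ ^ 2 * Real.sqrt b)| ≤ 3 * |a - b| := by
  have key : ∀ c : ℝ, 1 ≤ c → c⁻¹ ^ 2 * Real.sqrt c = (Real.sqrt c)⁻¹ ^ 3 := by
    intro c hc
    have h0 : 0 < Real.sqrt c := Real.sqrt_pos.2 (by linarith)
    have h1 : c = Real.sqrt c ^ 2 := (Real.sq_sqrt (by linarith)).symm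
    have h2 : c⁻¹ = (Real.sqrt c)⁻¹ ^ 2 := by rw [inv_pow, ← h1]
    rw [h2]
    field_simp
  rw [key a ha, key b hb]
  set s := (Real.sqrt a)⁻¹ with hs
  set t := (Real.sqrt b)⁻¹ with ht
  have hsa : 1 ≤ Real.sqrt a := Real.one_le_sqrt.2 ha
  have hsb : 1 ≤ Real.sqrt b := Real.one_le_sqrt.2 hb
  have hs0 : 0 < s := inv_pos.2 (by linarith)
  have ht0 : 0 < t := inv_pos.2 (by linarith)
  have hs1 : s ≤ 1 := inv_le_one_of_one_le₀ hsa
  have ht1 : t ≤ 1 := inv_le_one_of_one_le₀ hsb
  have h1 : s ^ 3 - t ^ 3 = (s - t) * (s ^ 2 + s * t + t ^ 2) := by ring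
  have h2 : |s ^ 2 + s * t + t ^ 2| ≤ 3 := by
    rw [abs_of_pos (by positivity)]
    nlinarith
  have h3 : |s - t| ≤ |a - b| := by
    have e1 : s - t = (Real.sqrt b - Real.sqrt a) * (s * t) := by
      rw [hs, ht]; field_simp
    have e2 : |Real.sqrt b - Real.sqrt a| ≤ |a - b| := by
      have e3 : a - b = (Real.sqrt a - Real.sqrt b) * (Real.sqrt a + Real.sqrt b) := by
        have := Real.sq_sqrt (show (0:ℝ) ≤ a by linarith)
        have := Real.sq_sqrt (show (0:ℝ) ≤ b by linarith)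
        nlinarith
      rw [e3, abs_mul, abs_sub_comm]
      have : 1 ≤ |Real.sqrt a + Real.sqrt b| := by
        rw [abs_of_pos (by linarith)]; linarith
      exact le_mul_of_one_le_right (abs_nonneg _) this
    rw [e1, abs_mul]
    have : |s * t| ≤ 1 := by
      rw [abs_of_pos (by positivity)]; nlinarith
    calc |Real.sqrt b - Real.sqrt a| * |s * t| ≤ |Real.sqrt b - Real.sqrt a| * 1 :=
          mul_le_mul_of_nonneg_left this (abs_nonneg _)
      _ ≤ |a - b| := by rw [mul_one]; exact e2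
  rw [h1, abs_mul]
  calc |s - t| * |s ^ 2 + s * t + t ^ 2| ≤ |a - b| * 3 :=
        mul_le_mul h3 h2 (abs_nonneg _) (abs_nonneg _)
    _ = 3 * |a - b| := by ring

lemma Qf_close {m : ℕ} {F F' : ℝ → ℝ} (hb : ∀ s, |F s| ≤ 1) (hb' : ∀ s, |F' s| ≤ 1) {δ : ℝ}
    (h : ∀ s, |F s - F' s| ≤ δ) (y : Rn (m + 2)) : |Qf m F y - Qf m F' y| ≤ 12 * δ := by
  unfold Qf
  rw [← mul_sub, abs_mul]
  have h1 : |2 * deriv hf (y 1)| ≤ 2 := by
    have := deriv_hf_pos (y 1)
    rw [abs_of_pos (by linarith)]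
    linarith [deriv_hf_le (y 1)]
  have h2 := sqrt_term (one_le_Wf (AF m F) y) (one_le_Wf (AF m F') y)
  have h3 : |Wf (AF m F) y - Wf (AF m F') y| ≤ 2 * δ := by
    rw [AF_W, AF_W]
    have e : 1 + (F (y 0) ^ 2 + hf (y 1) ^ 2) - (1 + (F' (y 0) ^ 2 + hf (y 1) ^ 2))
        = (F (y 0) - F' (y 0)) * (F (y 0) + F' (y 0)) := by ring
    rw [e, abs_mul]
    have h4 : |F (y 0) + F' (y 0)| ≤ 2 := (abs_add_le _ _).trans (by linarith [hb (y 0), hb' (y 0)])
    calc |F (y 0) - F' (y 0)| * |F (y 0) + F' (y 0)| ≤ δ * 2 :=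
          mul_le_mul (h _) h4 (abs_nonneg _) ((abs_nonneg _).trans (h (y 0)))
      _ = 2 * δ := by ring
  calc _ ≤ 2 * (3 * |Wf (AF m F) y - Wf (AF m F') y|) :=
        mul_le_mul h1 h2 (abs_nonneg _) (by norm_num)
    _ ≤ 12 * δ := by linarith

section
variable {m : ℕ} (ν : Measure ℝ) [IsProbabilityMeasure ν]

/-- The density of `R dv` with respect to Lebesgue measure. -/
noncomputable def wj (m : ℕ) (ν : Measure ℝ) (j : ℕ) (y : Rn (m + 2)) : ℝ :=
  deriv (FS ν ((j:ℝ) + 1)) (y 0) * Qf m (FS ν ((j:ℝ) + 1)) y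

lemma abs_FS_le (c : ℝ) (s : ℝ) : |FS ν c s| ≤ 1 := by
  rw [abs_of_nonneg (FS_nonneg ν c s)]; exact FS_le_one ν c s

lemma abs_FD_le (s : ℝ) : |FD ν s| ≤ 1 := by
  rw [abs_of_nonneg (FD_nonneg ν s)]; exact FD_le_one ν s

lemma continuous_wj (j : ℕ) : Continuous (wj m ν j) := by
  have hj : (0:ℝ) < (j:ℝ) + 1 := by positivity
  have hd : Continuous (deriv (FS ν ((j:ℝ) + 1))) := (contDiff_FS ν hj).continuous_deriv (by simp)
  exact (hd.comp (continuous_apply 0)).mul (continuous_Qf (contDiff_FS ν hj).continuous)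

lemma wj_nonneg (j : ℕ) (y : Rn (m + 2)) : 0 ≤ wj m ν j y :=
  mul_nonneg (deriv_FS_nonneg ν (by positivity) _) (Qf_pos y).le

variable {ν} (hat : ∀ x, ν {x} = 0)
include hat

lemma weak_wj (hs : ν (Icc 0 1)ᶜ = 0) {χ : Rn (m + 2) → ℝ} (hχ : Continuous χ)
    (hc : HasCompactSupport χ) :
    Tendsto (fun j : ℕ => ∫ y, χ y * wj m ν j y) atTop
      (𝓝 (∫ y, χ y ∂(kap ν (m + 1) (Qf m (FD ν))))) := by
  obtain ⟨δ, hδ0, hδ, hcl⟩ := FS_close hat hs
  have hFD : Continuous (FD ν) := FD_continuous hat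
  have hQ : Continuous (Qf m (FD ν)) := continuous_Qf hFD
  have e1 : ∫ y, χ y ∂(kap ν (m + 1) (Qf m (FD ν)))
      = ∫ y, χ y * Qf m (FD ν) y ∂(kap0 ν (m + 1)) := by
    rw [kap, integral_withDensity_eq_integral_toReal_smul hQ.measurable.ennreal_ofReal (by simp)]
    apply integral_congr_ae
    filter_upwards with y
    rw [ENNReal.toReal_ofReal (Qf_pos y).le, smul_eq_mul, mul_comm]
  rw [e1]
  have h1 := weak_conv ν (hχ.mul hQ) (hc.mul_right (f' := Qf m (FD ν)))
  have h2 := weak_conv ν hχ.abs (by simpa using hc.norm)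
  have h3 : Tendsto (fun j : ℕ => (12 * δ j) * ∫ y, |χ y| * deriv (FS ν ((j:ℝ) + 1)) (y 0))
      atTop (𝓝 0) := by
    have := (hδ.const_mul 12).mul h2
    simpa using this
  have h4 : Tendsto (fun j : ℕ => (∫ y, χ y * wj m ν j y)
      - ∫ y, (χ * Qf m (FD ν)) y * deriv (FS ν ((j:ℝ) + 1)) (y 0)) atTop (𝓝 0) := by
    apply squeeze_zero_norm _ h3
    intro j
    have hj : (0:ℝ) < (j:ℝ) + 1 := by positivity
    have hd : Continuous (fun y : Rn (m + 2) => deriv (FS ν ((j:ℝ) + 1)) (y 0)) := by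
      have := (contDiff_FS ν hj).continuous_deriv (by simp)
      exact this.comp (continuous_apply 0)
    rw [← integral_sub, Real.norm_eq_abs]
    · calc _ ≤ ∫ y, |χ y * wj m ν j y - (χ * Qf m (FD ν)) y * deriv (FS ν ((j:ℝ) + 1)) (y 0)| :=
            abs_integral_le_integral_abs
        _ ≤ ∫ y, (12 * δ j) * (|χ y| * deriv (FS ν ((j:ℝ) + 1)) (y 0)) := by
            apply integral_mono_of_nonneg
            · exact Eventually.of_forall fun _ => abs_nonneg _
            · apply Integrable.const_mul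
              exact (hχ.abs.mul hd).integrable_of_hasCompactSupport
                (HasCompactSupport.mul_right (by simpa using hc.norm))
            · filter_upwards with y
              have e : χ y * wj m ν j y - (χ * Qf m (FD ν)) y * deriv (FS ν ((j:ℝ) + 1)) (y 0)
                  = (Qf m (FS ν ((j:ℝ) + 1)) y - Qf m (FD ν) y)
                    * (χ y * deriv (FS ν ((j:ℝ) + 1)) (y 0)) := by
                simp only [wj, Pi.mul_apply]; ring
              rw [e, abs_mul, abs_mul, abs_of_nonneg (deriv_FS_nonneg ν hj (y 0))]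
              apply mul_le_mul_of_nonneg_right
              · exact Qf_close (abs_FS_le ν _) (abs_FD_le ν) (hcl j) y
              · exact mul_nonneg (abs_nonneg _) (deriv_FS_nonneg ν hj _)
        _ = _ := integral_const_mul _ _
    · exact (hχ.mul (continuous_wj ν j)).integrable_of_hasCompactSupport hc.mul_right
    · exact ((hχ.mul hQ).mul hd).integrable_of_hasCompactSupport (hc.mul_right).mul_right
  have h5 := h4.add h1
  simp only [sub_add_cancel, zero_add] at h5
  exact h5

end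

end Pool.Agent.H879R2.SC
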